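import Pool.Agent.helper8.M4V.Chs
import Pool.Agent.helper95.M4.LT5
import Pool.Agent.helper66.M4.VFin

/-!
# Project M4 (MP_1b8d20_an, S03975), block V, BASE_E: the region near the circle `‖z‖ = 2` (helper74)
-/

set_option autoImplicit false

namespace Pool.Agent.M4

open Complex ComplexConjugate Topology Filter
open M4J (thL aA DD)

namespace BE

/-- continuity of the half angle. -/
theorem thL_ct {X Y Z : ℂ → ℂ} {z : ℂ} (hX : ContinuousAt X z) (hY : ContinuousAt Y z) (hZ : ContinuousAt Z z)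
    (hY0 : 0 < (Y z).re) (hZ0 : 0 < (Z z).re) : ContinuousAt (fun y => thL (X y) (Y y) (Z y)) z := by
  have hYn : Y z ≠ 0 := by intro h; rw [h] at hY0; simp at hY0
  have hZn : Z z ≠ 0 := by intro h; rw [h] at hZ0; simp at hZ0
  have hs : Y z / Z z ∈ slitPlane := by
    rw [Complex.mem_slitPlane_iff_arg]
    obtain ⟨h1, h2, h3⟩ := arg_div_pos hY0 hZ0
    have a1 := abs_lt.1 h2
    have a2 := abs_lt.1 h3
    refine ⟨?_, div_ne_zero hYn hZn⟩
    rw [h1]
    intro h4
    linarith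
  have h1 : ContinuousAt (fun y => Y y / Z y) z := hY.div hZ hZn
  have h2 : ContinuousAt (fun y => arg (Y y / Z y)) z :=
    ContinuousAt.comp (f := fun y => Y y / Z y) (g := arg) (Complex.continuousAt_arg hs) h1
  have h3 : ContinuousAt (fun y => (‖Y y‖ ^ 2 + ‖Z y‖ ^ 2 - ‖X y‖ ^ 2) / (2 * ‖Y y‖ * ‖Z y‖)) z := by
    refine ContinuousAt.div (((hY.norm.pow 2).add (hZ.norm.pow 2)).sub (hX.norm.pow 2)) ((continuousAt_const.mul hY.norm).mul hZ.norm) ?_
    have := norm_pos_iff.2 hYn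
    have := norm_pos_iff.2 hZn
    positivity
  have h4 : ContinuousAt (fun y => aA ‖X y‖ ‖Y y‖ ‖Z y‖) z := Real.continuous_arccos.continuousAt.comp h3
  exact (continuousAt_const.sub h4).sub h2

theorem X0 (z : ℂ) : Xs [] z 0 = z := rfl
theorem X1 (z : ℂ) : Xs [] z 1 = -I * z ^ 2 := rfl
theorem X2 (z : ℂ) : Xs [] z 2 = -I * z := rfl
theorem X3 (z : ℂ) : Xs [] z 3 = z := rfl
theorem X4 (z : ℂ) : Xs [] z 4 = -I * z ^ 2 := rfl
theorem C0 (z : ℂ) : cs [] z 0 = 0 := by
  show (0 : ℂ) + ((0 : ℤ) : ℂ) = 0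
  simp
theorem C1 (z : ℂ) : cs [] z 1 = (z ^ 2)⁻¹ := by
  show (z ^ 2)⁻¹ + ((0 : ℤ) : ℂ) = (z ^ 2)⁻¹
  simp
theorem C2 (z : ℂ) : cs [] z 2 = 0 := by
  show (0 : ℂ) + ((0 : ℤ) : ℂ) = 0
  simp

theorem reX {z : ℂ} (hz : z ∈ Qd) : 0 < (Xs [] z 0).re ∧ 0 < (Xs [] z 1).re ∧ 0 < (Xs [] z 2).re := by
  obtain ⟨h1, h2⟩ := hz
  refine ⟨h1, ?_, ?_⟩
  · rw [X1]
    have : (-I * z ^ 2).re = 2 * z.re * z.im := by
      simp [pow_two]; ring
    rw [this]; positivity
  · rw [X2]
    have : (-I * z).re = z.im := by simp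
    rw [this]; exact h2

theorem ctX (z : ℂ) (j : ℤ) : ContinuousAt (fun y => Xs [] y j) z := by
  unfold Xs
  split
  · exact (Diff_Tr []).1.continuous.continuousAt
  · split
    · exact (Diff_Tr []).2.1.continuous.continuousAt
    · exact (Diff_Tr []).2.2.continuous.continuousAt

theorem ct_th {z : ℂ} (hz : z ∈ Qd) : ContinuousAt (fun y => ths [] y 0) z ∧ ContinuousAt (fun y => ths [] y 1) z ∧
    ContinuousAt (fun y => ths [] y 2) z := by
  obtain ⟨r0, r1, r2⟩ := reX hz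
  exact ⟨thL_ct (ctX z 0) (ctX z 1) (ctX z 2) r1 r2, thL_ct (ctX z 1) (ctX z 2) (ctX z 3) r2 r0,
    thL_ct (ctX z 2) (ctX z 3) (ctX z 4) r0 r1⟩

theorem ct_ds {z : ℂ} (hz : z ∈ Qd) : ContinuousAt (ds []) z := by
  obtain ⟨r0, r1, r2⟩ := reX hz
  obtain ⟨t0, t1, t2⟩ := ct_th hz
  have ha : ∀ j, 0 < (Xs [] z j).re → ContinuousAt (fun y => arg (Xs [] y j)) z := by
    intro j hj
    exact ContinuousAt.comp (f := fun y => Xs [] y j) (g := arg) (Complex.continuousAt_arg (Or.inl hj)) (ctX z j)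
  have hpsi : ContinuousAt (psi []) z :=
    continuousAt_const.mul (((t0.mul (ha 0 r0)).add (t1.mul (ha 1 r1))).add (t2.mul (ha 2 r2)))
  have h1 : ContinuousAt (fun y => ((psi [] y : ℝ) : ℂ) * I) z := (Complex.continuous_ofReal.continuousAt.comp hpsi).mul continuousAt_const
  have h2 : ContinuousAt (oms []) z := Complex.continuous_exp.continuousAt.comp h1
  exact continuousAt_const.mul (Complex.continuous_conj.continuousAt.comp h2)

theorem ct_vs_aux {z : ℂ} {j : ℤ} (h0 : 0 < (Xs [] z j).re) (ht : ContinuousAt (fun y => ths [] y j) z)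
    (hc : ContinuousAt (fun y => cs [] y j) z) : ContinuousAt (fun y => vs [] y j) z := by
  have h1 : ContinuousAt (fun y => ((ths [] y j : ℝ) : ℂ) * I) z := (Complex.continuous_ofReal.continuousAt.comp ht).mul continuousAt_const
  have h2 : ContinuousAt (fun y => exp (((ths [] y j : ℝ) : ℂ) * I)) z := Complex.continuous_exp.continuousAt.comp h1
  have hne : Xs [] z j ≠ 0 := by
    intro h
    rw [h] at h0
    simp at h0
  exact hc.sub ((continuousAt_const.mul h2).div (ctX z j) hne)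

theorem ct_c {z : ℂ} (hz : z ∈ Qd) : ContinuousAt (fun y => cs [] y 0) z ∧ ContinuousAt (fun y => cs [] y 1) z ∧
    ContinuousAt (fun y => cs [] y 2) z := by
  have hz0 : z ≠ 0 := by
    rintro rfl
    have := hz.1
    simp at this
  refine ⟨?_, ?_, ?_⟩
  · simp only [C0]; exact continuousAt_const
  · simp only [C1]
    exact (continuousAt_id.pow 2).inv₀ (pow_ne_zero 2 hz0)
  · simp only [C2]; exact continuousAt_const

/-- the angles at the circle. -/
theorem th_val {z : ℂ} (hz : z ∈ Qd) (h2 : ‖z‖ = 2) : ths [] z 0 = Real.pi / 2 - arg z ∧ ths [] z 1 = 0 ∧ ths [] z 2 = arg z := by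
  obtain ⟨r0, r1, r2⟩ := reX hz
  have hz0 : z ≠ 0 := by
    rintro rfl
    simp at h2
  have nL : ‖Xs [] z 0‖ = 2 := h2
  have nN : ‖Xs [] z 1‖ = 4 := by
    rw [X1, norm_mul, norm_neg, norm_I, one_mul, norm_pow, h2]; norm_num
  have nR : ‖Xs [] z 2‖ = 2 := by
    rw [X2, norm_mul, norm_neg, norm_I, one_mul, h2]
  have a1 : arg (Xs [] z 1 / Xs [] z 2) = arg z := by
    have : Xs [] z 1 / Xs [] z 2 = z := by
      rw [X1, X2]
      have := I_ne_zero
      field_simp
    rw [this]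
  have a2 : arg (Xs [] z 2 / Xs [] z 0) = -(Real.pi / 2) := by
    have : Xs [] z 2 / Xs [] z 0 = -I := by
      rw [X2, X0]
      field_simp
    rw [this, arg_neg_I]
  have a3 : arg (Xs [] z 0 / Xs [] z 1) = Real.pi / 2 - arg z := by
    have e1 := (arg_div_pos r1 r2).1
    have e2 := (arg_div_pos r2 r0).1
    have e3 := (arg_div_pos r0 r1).1
    linarith
  refine ⟨?_, ?_, ?_⟩
  · show Real.pi / 2 - aA ‖Xs [] z 0‖ ‖Xs [] z 1‖ ‖Xs [] z 2‖ - arg (Xs [] z 1 / Xs [] z 2) = _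
    rw [a1, nL, nN, nR]
    unfold aA
    norm_num
  · show Real.pi / 2 - aA ‖Xs [] z 1‖ ‖Xs [] z 2‖ ‖Xs [] z 0‖ - arg (Xs [] z 2 / Xs [] z 0) = _
    rw [a2, nL, nN, nR]
    unfold aA
    norm_num
    ring
  · show Real.pi / 2 - aA ‖Xs [] z 2‖ ‖Xs [] z 0‖ ‖Xs [] z 1‖ - arg (Xs [] z 0 / Xs [] z 1) = _
    rw [a3, nL, nN, nR]
    unfold aA
    norm_num

theorem ds_val {z : ℂ} (hz : z ∈ Qd) (h2 : ‖z‖ = 2) : ds [] z = -I := by
  obtain ⟨t0, t1, t2⟩ := th_val hz h2
  obtain ⟨r0, r1, r2⟩ := reX hz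
  have hz0 : z ≠ 0 := by
    rintro rfl
    simp at h2
  have a2 : arg (Xs [] z 2) = arg z - Real.pi / 2 := by
    have h3 : arg (Xs [] z 2 / Xs [] z 0) = -(Real.pi / 2) := by
      have : Xs [] z 2 / Xs [] z 0 = -I := by
        rw [X2, X0]
        field_simp
      rw [this, arg_neg_I]
    have e2 := (arg_div_pos r2 r0).1
    have e3 : arg (Xs [] z 0) = arg z := rfl
    linarith
  have hpsi : psi [] z = 0 := by
    unfold psi
    rw [t0, t1, t2, a2]
    have e3 : arg (Xs [] z 0) = arg z := rfl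
    rw [e3]
    ring
  unfold ds oms
  rw [hpsi]
  simp

theorem vs_val {z : ℂ} (hz : z ∈ Qd) (h2 : ‖z‖ = 2) : vs [] z 0 = 2 / z ^ 2 ∧ vs [] z 1 = 2 / z ^ 2 ∧ vs [] z 2 = 1 / 2 := by
  obtain ⟨t0, t1, t2⟩ := th_val hz h2
  have hz0 : z ≠ 0 := by
    rintro rfl
    simp at h2
  have hI := I_ne_zero
  have he : exp ((arg z : ℝ) * I) = z / 2 := by
    have := Complex.norm_mul_exp_arg_mul_I z
    rw [h2] at this
    have h3 : (2 : ℂ) * exp ((arg z : ℝ) * I) = z := by exact_mod_cast this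
    field_simp
    linear_combination h3
  refine ⟨?_, ?_, ?_⟩
  · unfold vs
    rw [t0, C0, X0]
    have e : exp (((Real.pi / 2 - arg z : ℝ) : ℂ) * I) = I * (2 / z) := by
      have : ((Real.pi / 2 - arg z : ℝ) : ℂ) * I = (Real.pi : ℂ) / 2 * I - (arg z : ℝ) * I := by push_cast; ring
      rw [this, Complex.exp_sub, he, Complex.exp_pi_div_two_mul_I]
      field_simp
    rw [e]
    field_simp
    linear_combination (-2) * I_sq
  · unfold vs
    rw [t1, C1, X1]
    simp only [ofReal_zero, zero_mul, Complex.exp_zero, mul_one]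
    field_simp
    norm_num
  · unfold vs
    rw [t2, C2, X2, he]
    field_simp
    norm_num

theorem vs_per (z : ℂ) (j : ℤ) : vs [] z (j + 3) = vs [] z j + 1 := by
  unfold vs
  have e : ths [] z (j + 3) = ths [] z j := by
    unfold ths
    have e1 : j + 3 + 1 = (j + 1) + 3 := by ring
    have e2 : j + 3 + 2 = (j + 2) + 3 := by ring
    rw [e1, e2, Xs_per, Xs_per, Xs_per]
  rw [e, cs_per, Xs_per]
  ring

theorem vs_m1 (z : ℂ) : vs [] z (-1) = vs [] z 2 - 1 := by
  have := vs_per z (-1)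
  rw [show (-1 : ℤ) + 3 = 2 by norm_num] at this
  rw [this]; ring

/-- near a point of the circle the only top word is the empty one. -/
theorem word_nil {z0 : ℂ} (hq : z0 ∈ Qd) (h2 : ‖z0‖ = 2) : ∀ᶠ y in 𝓝 z0, ∀ w, InT w y → w = [] := by
  obtain ⟨dL, dN, dR⟩ := Diff_Tr []
  have cL := dL.continuous
  have cN := dN.continuous
  have cR := dR.continuous
  have oL : IsOpen {z : ℂ | ‖Lf [] z‖ < ‖Nf [] z - I * Rf [] z‖} := isOpen_lt cL.norm (cN.sub (continuous_const.mul cR)).norm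
  have oR : IsOpen {z : ℂ | ‖Rf [] z‖ < ‖Lf [] z - I * Nf [] z‖} := isOpen_lt cR.norm (cL.sub (continuous_const.mul cN)).norm
  obtain ⟨hx, hy⟩ := hq
  have hn : z0.re ^ 2 + z0.im ^ 2 = 4 := by
    have : ‖z0‖ ^ 2 = 4 := by rw [h2]; norm_num
    rw [Complex.sq_norm, normSq_apply] at this
    linarith
  have hpos : 0 < ‖z0‖ := by rw [h2]; norm_num
  have mL : z0 ∈ {z : ℂ | ‖Lf [] z‖ < ‖Nf [] z - I * Rf [] z‖} := by
    show ‖z0‖ < ‖-I * z0 ^ 2 - I * (-I * z0)‖
    have e : -I * z0 ^ 2 - I * (-I * z0) = z0 * (-(1 + I * z0)) := by linear_combination z0 * I_sq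
    rw [e, norm_mul, norm_neg]
    have h3 : 1 < ‖1 + I * z0‖ := by
      have h4 : 1 < ‖1 + I * z0‖ ^ 2 := by
        rw [Complex.sq_norm, normSq_apply]
        simp only [add_re, add_im, one_re, one_im, mul_re, mul_im, I_re, I_im]
        nlinarith
      by_contra hcon
      push Not at hcon
      have := pow_le_one₀ (n := 2) (norm_nonneg (1 + I * z0)) hcon
      linarith
    nlinarith
  have mR : z0 ∈ {z : ℂ | ‖Rf [] z‖ < ‖Lf [] z - I * Nf [] z‖} := by
    show ‖-I * z0‖ < ‖z0 - I * (-I * z0 ^ 2)‖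
    have e : z0 - I * (-I * z0 ^ 2) = z0 * (1 - z0) := by linear_combination z0 ^ 2 * I_sq
    rw [e, norm_mul, norm_mul, norm_neg, norm_I, one_mul]
    have h3 : 1 < ‖1 - z0‖ := by
      have h4 : 1 < ‖1 - z0‖ ^ 2 := by
        rw [Complex.sq_norm, normSq_apply]
        simp only [sub_re, sub_im, one_re, one_im]
        nlinarith
      by_contra hcon
      push Not at hcon
      have := pow_le_one₀ (n := 2) (norm_nonneg (1 - z0)) hcon
      linarith
    nlinarith
  have oQ : IsOpen Qd := (isOpen_lt continuous_const continuous_re).inter (isOpen_lt continuous_const continuous_im)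
  filter_upwards [oL.mem_nhds mL, oR.mem_nhds mR, oQ.mem_nhds ⟨hx, hy⟩] with y h3 h4 h5 w hw
  have h6 := Ch_Qd hw.1
  refine InT_unique hw ⟨⟨h5, h6.2⟩, ?_, ?_, h3.le, h4.le, Or.inl h3⟩
  · show 0 < ((-I * y ^ 2) * conj (-I * y)).re
    have e : ((-I * y ^ 2) * conj (-I * y)).re = y.re * (y.re ^ 2 + y.im ^ 2) := by
      simp only [map_mul, map_neg, conj_I, pow_two, mul_re, mul_im, neg_re, neg_im, I_re, I_im, conj_re, conj_im]
      ring
    rw [e]
    have := h5.1
    have := h5.2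
    positivity
  · show 0 < (y * conj (-I * y ^ 2)).re
    have e : (y * conj (-I * y ^ 2)).re = y.im * (y.re ^ 2 + y.im ^ 2) := by
      simp only [map_mul, map_neg, conj_I, pow_two, mul_re, mul_im, neg_re, neg_im, I_re, I_im, conj_re, conj_im]
      ring
    rw [e]
    have := h5.1
    have := h5.2
    positivity

theorem xi_mI (x : ℂ) : xi (-I) x = x.re := by
  unfold xi
  simp

theorem dn_mI (x : ℂ) : dn (-I) x = -x.im := by
  unfold dn
  simp

theorem t_xi {l : Filter ℂ} {d x : ℂ → ℂ} {d0 x0 : ℂ} (hd : Tendsto d l (𝓝 d0)) (hx : Tendsto x l (𝓝 x0)) :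
    Tendsto (fun y => xi (d y) (x y)) l (𝓝 (xi d0 x0)) := by
  unfold xi
  exact (continuous_re.tendsto _).comp (hx.mul ((Complex.continuous_conj.tendsto _).comp (tendsto_const_nhds.mul hd)))

theorem t_dn {l : Filter ℂ} {d x : ℂ → ℂ} {d0 x0 : ℂ} (hd : Tendsto d l (𝓝 d0)) (hx : Tendsto x l (𝓝 x0)) :
    Tendsto (fun y => dn (d y) (x y)) l (𝓝 (dn d0 x0)) := by
  unfold dn
  exact (continuous_re.tendsto _).comp (hx.mul ((Complex.continuous_conj.tendsto _).comp hd))

/-- the limit statement. -/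
theorem lim_pt {z0 x0 : ℂ} (hq : z0 ∈ Qd) (h2 : ‖z0‖ = 2)
    (h : (-(1 / 2) ≤ x0.re ∧ x0.re ≤ (2 / z0 ^ 2).re ∧ 1 ≤ ‖x0‖ * 2) ∨
      ((2 / z0 ^ 2).re ≤ x0.re ∧ x0.re ≤ (2 / z0 ^ 2).re ∧ x0.im ≤ (1 / z0 ^ 2).im ∧ 1 ≤ ‖x0 - 1 / z0 ^ 2‖ * 4) ∨
      ((2 / z0 ^ 2).re ≤ x0.re ∧ x0.re ≤ 1 / 2 ∧ 1 ≤ ‖x0‖ * 2)) (k : ℤ) : 1 / 2 ≤ ‖x0 - k‖ := by
  have hz0 : z0 ≠ 0 := by
    rintro rfl
    simp at h2
  obtain ⟨P, hP⟩ : ∃ P, P = 1 / z0 ^ 2 := ⟨_, rfl⟩
  have hP2 : 2 / z0 ^ 2 = 2 * P := by rw [hP]; ring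
  have hnP : ‖P‖ = 1 / 4 := by
    rw [hP, norm_div, norm_pow, h2, norm_one]; norm_num
  have hsqP : P.re ^ 2 + P.im ^ 2 = 1 / 16 := by
    have : ‖P‖ ^ 2 = 1 / 16 := by rw [hnP]; norm_num
    rw [Complex.sq_norm, normSq_apply] at this
    linarith
  have hPim : P.im < 0 := by
    rw [hP, one_div, inv_im]
    obtain ⟨hx, hy⟩ := hq
    have h3 : (z0 ^ 2).im = 2 * z0.re * z0.im := by rw [pow_two, mul_im]; ring
    have h4 : 0 < (z0 ^ 2).im := by rw [h3]; positivity
    have h5 : 0 < normSq (z0 ^ 2) := normSq_pos.2 (pow_ne_zero 2 hz0)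
    rw [neg_div]
    have := div_pos h4 h5
    linarith
  rw [hP2, ← hP] at h
  have hPre : |P.re| ≤ 1 / 4 := by
    rw [← hnP]; exact Complex.abs_re_le_norm P
  have hPre' := abs_le.1 hPre
  have e2 : (2 * P).re = 2 * P.re := by simp
  rw [e2] at h
  have hre : -(1 / 2) ≤ x0.re ∧ x0.re ≤ 1 / 2 := by
    rcases h with ⟨a, b, -⟩ | ⟨a, b, -⟩ | ⟨a, b, -⟩
    · exact ⟨a, by linarith⟩
    · exact ⟨by linarith, by linarith⟩
    · exact ⟨by linarith, b⟩
  have hn : 1 / 2 ≤ ‖x0‖ := by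
    rcases h with ⟨-, -, a⟩ | ⟨a, b, c, d⟩ | ⟨-, -, a⟩
    · linarith
    · have hxr : x0.re = 2 * P.re := le_antisymm b a
      have h3 : (1 / 4) ^ 2 ≤ ‖x0 - P‖ ^ 2 := pow_le_pow_left₀ (by norm_num) (by linarith) 2
      rw [Complex.sq_norm, normSq_apply] at h3
      simp only [sub_re, sub_im, hxr] at h3
      -- (im x0 - im P)^2 ≥ (im P)^2
      have h4 : P.im ^ 2 ≤ (x0.im - P.im) ^ 2 := by nlinarith
      have h5 : x0.im ≤ 2 * P.im := by
        by_contra hcon
        push Not at hcon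
        have h6 : x0.im - P.im ≤ 0 := by linarith
        have h7 : P.im < x0.im - P.im := by linarith
        nlinarith
      have h8 : (1 / 2) ^ 2 ≤ ‖x0‖ ^ 2 := by
        rw [Complex.sq_norm, normSq_apply, hxr]
        have : 4 * P.im ^ 2 ≤ x0.im * x0.im := by nlinarith
        nlinarith
      exact le_of_pow_le_pow_left₀ two_ne_zero (norm_nonneg _) h8
    · linarith
  by_cases hk : k = 0
  · subst hk
    simpa using hn
  · have h3 : |(x0 - k).re| ≤ ‖x0 - k‖ := Complex.abs_re_le_norm _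
    refine le_trans ?_ h3
    simp only [sub_re, intCast_re]
    rcases lt_or_gt_of_ne hk with h4 | h4
    · have h5 : (k : ℝ) ≤ -1 := by exact_mod_cast (by omega : k ≤ -1)
      rw [le_abs]; left; linarith
    · have h5 : (1 : ℝ) ≤ k := by exact_mod_cast (by omega : 1 ≤ k)
      rw [le_abs]; right; linarith

/-- the bad event. -/
def Bad (η : ℝ) (y : ℂ) : Prop := ∃ (j : ℤ) (x : ℂ) (k : ℤ), (j = 0 ∨ j = 1 ∨ j = 2) ∧ InS (vs [] y) (ds [] y) j x ∧
  Bel (Xs [] y) (cs [] y) (ds [] y) j x ∧ ‖x - k‖ ≤ 1 / 2 - η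

theorem not_bad {z0 : ℂ} (hq : z0 ∈ Qd) (h2 : ‖z0‖ = 2) {η : ℝ} (hη : 0 < η) : ∀ᶠ y in 𝓝 z0, ¬ Bad η y := by
  by_contra hcon
  have hfr : ∃ᶠ y in 𝓝 z0, Bad η y := hcon
  have hne : (𝓝 z0 ⊓ 𝓟 {y | Bad η y}).NeBot := by
    rw [← frequently_mem_iff_neBot]
    exact hfr
  obtain ⟨U, hU⟩ := Ultrafilter.exists_le (𝓝 z0 ⊓ 𝓟 {y | Bad η y})
  have hU1 : (U : Filter ℂ) ≤ 𝓝 z0 := hU.trans inf_le_left
  have hU2 : ∀ᶠ y in (U : Filter ℂ), Bad η y := hU (mem_inf_of_right (mem_principal_self _))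
  have hch : ∀ y, ∃ (j : ℤ) (x : ℂ) (k : ℤ), Bad η y → (j = 0 ∨ j = 1 ∨ j = 2) ∧ InS (vs [] y) (ds [] y) j x ∧
      Bel (Xs [] y) (cs [] y) (ds [] y) j x ∧ ‖x - k‖ ≤ 1 / 2 - η := by
    intro y
    by_cases hb : Bad η y
    · obtain ⟨j, x, k, h⟩ := hb
      exact ⟨j, x, k, fun _ => h⟩
    · exact ⟨0, 0, 0, fun h => absurd h hb⟩
  choose j x k hall using hch
  -- limits
  have td : Tendsto (ds []) U (𝓝 (-I)) := by
    have := (ct_ds hq).tendsto
    rw [ds_val hq h2] at this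
    exact this.mono_left hU1
  obtain ⟨r0, r1, r2⟩ := reX hq
  obtain ⟨t0, t1, t2⟩ := ct_th hq
  obtain ⟨q0, q1, q2⟩ := ct_c hq
  obtain ⟨e0, e1, e2⟩ := vs_val hq h2
  have tv0 : Tendsto (fun y => vs [] y 0) U (𝓝 (2 / z0 ^ 2)) := by
    have := (ct_vs_aux r0 t0 q0).tendsto
    rw [e0] at this
    exact this.mono_left hU1
  have tv1 : Tendsto (fun y => vs [] y 1) U (𝓝 (2 / z0 ^ 2)) := by
    have := (ct_vs_aux r1 t1 q1).tendsto
    rw [e1] at this
    exact this.mono_left hU1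
  have tv2 : Tendsto (fun y => vs [] y 2) U (𝓝 (1 / 2)) := by
    have := (ct_vs_aux r2 t2 q2).tendsto
    rw [e2] at this
    exact this.mono_left hU1
  have tvm : Tendsto (fun y => vs [] y (-1)) U (𝓝 (-(1 / 2))) := by
    have h3 : Tendsto (fun y => vs [] y 2 - 1) U (𝓝 (1 / 2 - 1)) := tv2.sub tendsto_const_nhds
    rw [show (1 / 2 - 1 : ℂ) = -(1 / 2) by norm_num] at h3
    simpa only [vs_m1] using h3
  have hhalf : (1 / 2 : ℂ).re = 1 / 2 := by norm_num
  have hmhalf : (-(1 / 2) : ℂ).re = -(1 / 2) := by norm_num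
  have xv0 := t_xi td tv0
  have xv1 := t_xi td tv1
  have xv2 := t_xi td tv2
  have xvm := t_xi td tvm
  rw [xi_mI] at xv0 xv1 xv2 xvm
  rw [hhalf] at xv2
  rw [hmhalf] at xvm
  have hV : |(2 / z0 ^ 2).re| ≤ 1 / 2 := by
    refine (Complex.abs_re_le_norm _).trans ?_
    rw [norm_div, norm_pow, h2]
    norm_num
  have hV' := abs_le.1 hV
  -- bounds
  have b0 : ∀ᶠ y in (U : Filter ℂ), |xi (ds [] y) (vs [] y 0)| < 1 := by
    have := xv0.abs
    exact this.eventually (gt_mem_nhds (by linarith))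
  have b1 : ∀ᶠ y in (U : Filter ℂ), |xi (ds [] y) (vs [] y 1)| < 1 := by
    have := xv1.abs
    exact this.eventually (gt_mem_nhds (by linarith))
  have b2 : ∀ᶠ y in (U : Filter ℂ), |xi (ds [] y) (vs [] y 2)| < 1 := by
    have := xv2.abs
    exact this.eventually (gt_mem_nhds (by norm_num [abs_of_pos]))
  have bm : ∀ᶠ y in (U : Filter ℂ), |xi (ds [] y) (vs [] y (-1))| < 1 := by
    have := xvm.abs
    exact this.eventually (gt_mem_nhds (by norm_num [abs_of_pos]))
  have te : Tendsto (fun y => conj (I * ds [] y)) U (𝓝 1) := by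
    have h3 : Tendsto (fun y => conj (I * ds [] y)) U (𝓝 (conj (I * -I))) :=
      (Complex.continuous_conj.tendsto _).comp (tendsto_const_nhds.mul td)
    have h4 : conj (I * -I) = 1 := by simp
    rwa [h4] at h3
  have be : ∀ᶠ y in (U : Filter ℂ), 1 / 2 < (conj (I * ds [] y)).re ∧ |(conj (I * ds [] y)).im| < 1 := by
    have h3 := (continuous_re.tendsto _).comp te
    have h4 := ((continuous_im.tendsto _).comp te).abs
    refine (h3.eventually (lt_mem_nhds ?_)).and (h4.eventually (gt_mem_nhds ?_))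
    · rw [one_re]; norm_num
    · rw [one_im]; norm_num
  have hbd : ∀ᶠ y in (U : Filter ℂ), x y ∈ Metric.closedBall (0 : ℂ) 6 := by
    filter_upwards [hU2, b0, b1, b2, bm, be] with y h3 c0 c1 c2 cm ce
    obtain ⟨hj, hs, -, hk⟩ := hall y h3
    rw [mem_closedBall_zero_iff]
    have c0' := abs_lt.1 c0
    have c1' := abs_lt.1 c1
    have c2' := abs_lt.1 c2
    have cm' := abs_lt.1 cm
    have hxi : |xi (ds [] y) (x y)| ≤ 1 := by
      obtain ⟨s1, s2⟩ := hs
      rw [abs_le]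
      rcases hj with h | h | h
      · rw [h] at s1 s2
        rw [show (0 : ℤ) - 1 = -1 by norm_num] at s1
        exact ⟨by linarith, by linarith⟩
      · rw [h] at s1 s2
        rw [show (1 : ℤ) - 1 = 0 by norm_num] at s1
        exact ⟨by linarith, by linarith⟩
      · rw [h] at s1 s2
        rw [show (2 : ℤ) - 1 = 1 by norm_num] at s1
        exact ⟨by linarith, by linarith⟩
    have him : |(x y).im| ≤ 1 / 2 := by
      have h4 := Complex.abs_im_le_norm (x y - k y)
      simp only [sub_im, intCast_im, sub_zero] at h4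
      linarith
    have hxi2 : xi (ds [] y) (x y) = (x y).re * (conj (I * ds [] y)).re - (x y).im * (conj (I * ds [] y)).im := by
      unfold xi
      rw [mul_re]
    have hre : |(x y).re| ≤ 5 := by
      have h5 : |(x y).re * (conj (I * ds [] y)).re| ≤ 1 + 1 / 2 := by
        have h6 : (x y).re * (conj (I * ds [] y)).re = xi (ds [] y) (x y) + (x y).im * (conj (I * ds [] y)).im := by
          rw [hxi2]; ring
        rw [h6]
        refine (abs_add_le _ _).trans ?_
        have h7 : |(x y).im * (conj (I * ds [] y)).im| ≤ 1 / 2 * 1 := by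
          rw [abs_mul]
          exact mul_le_mul him ce.2.le (abs_nonneg _) (by norm_num)
        linarith
      rw [abs_mul, abs_of_pos (by linarith [ce.1] : 0 < (conj (I * ds [] y)).re)] at h5
      have h8 : |(x y).re| * (1 / 2) ≤ |(x y).re| * (conj (I * ds [] y)).re := mul_le_mul_of_nonneg_left ce.1.le (abs_nonneg _)
      linarith
    have := Complex.norm_le_abs_re_add_abs_im (x y)
    linarith
  obtain ⟨x0, -, hx0⟩ := (isCompact_closedBall (0 : ℂ) 6).ultrafilter_le_nhds (U.map x) (by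
    rw [le_principal_iff]
    exact hbd)
  have tx : Tendsto x U (𝓝 x0) := hx0
  have txi := t_xi td tx
  rw [xi_mI] at txi
  have tX0 : Tendsto (fun y => ‖Xs [] y 0‖) U (𝓝 2) := by
    have := ((ctX z0 0).norm.tendsto).mono_left hU1
    rwa [X0, h2] at this
  have tX1 : Tendsto (fun y => ‖Xs [] y 1‖) U (𝓝 4) := by
    have := ((ctX z0 1).norm.tendsto).mono_left hU1
    rw [X1, norm_mul, norm_neg, norm_I, one_mul, norm_pow, h2] at this
    norm_num at this
    exact this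
  have tX2 : Tendsto (fun y => ‖Xs [] y 2‖) U (𝓝 2) := by
    have := ((ctX z0 2).norm.tendsto).mono_left hU1
    rwa [X2, norm_mul, norm_neg, norm_I, one_mul, h2] at this
  have tc1 : Tendsto (fun y => cs [] y 1) U (𝓝 (1 / z0 ^ 2)) := by
    have := q1.tendsto.mono_left hU1
    rwa [C1, ← one_div] at this
  have hjc : (∀ᶠ y in (U : Filter ℂ), j y = 0) ∨ (∀ᶠ y in (U : Filter ℂ), j y = 1) ∨ (∀ᶠ y in (U : Filter ℂ), j y = 2) := by
    rw [← Ultrafilter.eventually_or, ← Ultrafilter.eventually_or]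
    filter_upwards [hU2] with y hy
    exact (hall y hy).1
  have hfin : ∀ m : ℤ, 1 / 2 ≤ ‖x0 - m‖ := by
    intro m
    apply lim_pt hq h2
    rcases hjc with hj | hj | hj
    · left
      refine ⟨?_, ?_, ?_⟩
      · refine le_of_tendsto_of_tendsto xvm txi ?_
        filter_upwards [hU2, hj] with y h3 h4
        have := (hall y h3).2.1.1
        rw [h4] at this
        exact this
      · refine le_of_tendsto_of_tendsto txi xv0 ?_
        filter_upwards [hU2, hj] with y h3 h4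
        have := (hall y h3).2.1.2
        rw [h4] at this
        exact this
      · refine ge_of_tendsto (tx.norm.mul tX0) ?_
        filter_upwards [hU2, hj] with y h3 h4
        have := (hall y h3).2.2.1.2
        rw [h4] at this
        unfold qd at this
        rw [C0, sub_zero] at this
        exact this
    · right; left
      refine ⟨?_, ?_, ?_, ?_⟩
      · refine le_of_tendsto_of_tendsto xv0 txi ?_
        filter_upwards [hU2, hj] with y h3 h4
        have := (hall y h3).2.1.1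
        rw [h4] at this
        exact this
      · refine le_of_tendsto_of_tendsto txi xv1 ?_
        filter_upwards [hU2, hj] with y h3 h4
        have := (hall y h3).2.1.2
        rw [h4] at this
        exact this
      · have h5 : dn (-I) (1 / z0 ^ 2) ≤ dn (-I) x0 := by
          refine le_of_tendsto_of_tendsto (t_dn td tc1) (t_dn td tx) ?_
          filter_upwards [hU2, hj] with y h3 h4
          have := (hall y h3).2.2.1.1
          rw [h4] at this
          exact this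
        rw [dn_mI, dn_mI] at h5
        linarith
      · refine ge_of_tendsto ((tx.sub tc1).norm.mul tX1) ?_
        filter_upwards [hU2, hj] with y h3 h4
        have := (hall y h3).2.2.1.2
        rw [h4] at this
        exact this
    · right; right
      refine ⟨?_, ?_, ?_⟩
      · refine le_of_tendsto_of_tendsto xv1 txi ?_
        filter_upwards [hU2, hj] with y h3 h4
        have := (hall y h3).2.1.1
        rw [h4] at this
        exact this
      · refine le_of_tendsto_of_tendsto txi xv2 ?_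
        filter_upwards [hU2, hj] with y h3 h4
        have := (hall y h3).2.1.2
        rw [h4] at this
        exact this
      · refine ge_of_tendsto (tx.norm.mul tX2) ?_
        filter_upwards [hU2, hj] with y h3 h4
        have := (hall y h3).2.2.1.2
        rw [h4] at this
        unfold qd at this
        rw [C2, sub_zero] at this
        exact this
  -- contradiction
  have hnear : ∀ᶠ y in (U : Filter ℂ), ‖x y - x0‖ < η / 2 := by
    have h3 : Tendsto (fun y => ‖x y - x0‖) U (𝓝 0) := by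
      have := (tx.sub (tendsto_const_nhds (x := x0))).norm
      simpa using this
    exact h3.eventually (gt_mem_nhds (by linarith))
  obtain ⟨y, hy1, hy2⟩ := (hU2.and hnear).exists
  have h3 := (hall y hy1).2.2.2
  have h4 := hfin (k y)
  have h5 : ‖x0 - k y‖ ≤ ‖x y - k y‖ + ‖x y - x0‖ := by
    have e : x0 - k y = (x y - k y) - (x y - x0) := by ring
    rw [e]
    exact norm_sub_le _ _
  linarith

end BE

/-- **BASE_E**: near a point of the circle `‖z‖ = 2` the regions stay away from the discs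
`‖u - m‖ ≤ 1/2 - η`. -/
theorem BASE_E {z0 : ℂ} (hq : z0 ∈ Qd) (h2 : ‖z0‖ = 2) {η : ℝ} (hη : 0 < η) : ∀ᶠ y in 𝓝 z0, ∀ w, InT w y →
    ∀ u ∈ Er (Xs w y) (cs w y) (vs w y) (ds w y), ∀ m : ℤ, 1 / 2 - η < ‖u - m‖ := by
  filter_upwards [BE.word_nil hq h2, BE.not_bad hq h2 hη] with y h1 h3 w hw u hu m
  have hw0 := h1 w hw
  subst hw0
  by_contra hcon
  push Not at hcon
  apply h3
  have hC : Chn (Xs [] y) (cs [] y) (vs [] y) (ds [] y) := (CHS (NZ_of_Ch hw.1) hw.wtop).toChn
  obtain ⟨n, j, hj, hs⟩ := hC.slab3 u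
  refine ⟨j, u + n, m + n, hj, hs, hC.bel_of_mem ((hC.add_int_iff n).2 hu) hs, ?_⟩
  push_cast
  have e : u + n - (m + n) = u - m := by ring
  rw [e]
  exact hcon

end Pool.Agent.M4
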