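import Mathlib

/-!
# Project m4: (MP_1b8d20_an, S03975), block III, part 1: sizes at a turn (helper74)
-/

set_option autoImplicit false

namespace Pool.Agent.M4.III

open Complex ComplexConjugate

/-- Edge lemma, first entry: `‖Y - iW‖ ≤ ‖X‖` bounds `Y` by `X`. -/
theorem EL1 {X Y W : ℂ} (hm : X ^ 2 + Y ^ 2 + W ^ 2 = X * Y * W) (h : ‖Y - I * W‖ ≤ ‖X‖) (hX : X ≠ 0) :
    ‖Y‖ ^ 2 ≤ 2 * ‖Y‖ + 2 * ‖X‖ + ‖X‖ * ‖Y‖ := by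
  set f := Y - I * W with hf
  have hX0 : 0 < ‖X‖ := norm_pos_iff.mpr hX
  have hW : W = -I * (Y - f) := by
    rw [hf]; linear_combination W * I_sq
  have e : X * Y ^ 2 * (-I) = X ^ 2 + f * (2 * Y - f) - I * (X * Y * f) := by
    have h2 := hm
    rw [hW] at h2
    linear_combination -h2 + (Y - f) ^ 2 * I_sq
  have h1 : ‖X‖ * ‖Y‖ ^ 2 ≤ ‖X‖ ^ 2 + ‖f‖ * (2 * ‖Y‖ + ‖f‖) + ‖X‖ * ‖Y‖ * ‖f‖ := by
    calc ‖X‖ * ‖Y‖ ^ 2 = ‖X * Y ^ 2 * (-I)‖ := by simp [norm_pow]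
      _ = ‖X ^ 2 + f * (2 * Y - f) - I * (X * Y * f)‖ := by rw [e]
      _ ≤ ‖X ^ 2 + f * (2 * Y - f)‖ + ‖I * (X * Y * f)‖ := norm_sub_le _ _
      _ ≤ ‖X ^ 2‖ + ‖f * (2 * Y - f)‖ + ‖I * (X * Y * f)‖ := by
          gcongr; exact norm_add_le _ _
      _ ≤ ‖X‖ ^ 2 + ‖f‖ * (2 * ‖Y‖ + ‖f‖) + ‖X‖ * ‖Y‖ * ‖f‖ := by
          rw [norm_pow, norm_mul f, norm_mul I, norm_mul (X * Y), norm_mul X, norm_I, one_mul]
          gcongr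
          calc ‖2 * Y - f‖ ≤ ‖2 * Y‖ + ‖f‖ := norm_sub_le _ _
            _ = 2 * ‖Y‖ + ‖f‖ := by rw [norm_mul]; norm_num
  have h3 : ‖X‖ * ‖Y‖ ^ 2 ≤ ‖X‖ * (2 * ‖Y‖ + 2 * ‖X‖ + ‖X‖ * ‖Y‖) := by
    have a1 : ‖f‖ * (2 * ‖Y‖ + ‖f‖) ≤ ‖X‖ * (2 * ‖Y‖ + ‖X‖) := by gcongr
    have a2 : ‖X‖ * ‖Y‖ * ‖f‖ ≤ ‖X‖ * ‖Y‖ * ‖X‖ := by gcongr
    nlinarith
  exact le_of_mul_le_mul_left h3 hX0

/-- Edge lemma, second entry. -/
theorem EL2 {X Y W : ℂ} (hm : X ^ 2 + Y ^ 2 + W ^ 2 = X * Y * W) (h : ‖Y - I * W‖ ≤ ‖X‖) (hX : X ≠ 0) :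
    ‖W‖ ^ 2 ≤ 2 * ‖W‖ + 2 * ‖X‖ + ‖X‖ * ‖W‖ := by
  -- apply EL1 to (conj X, conj W, conj Y): conj W - i conj Y = -i conj (Y - i W)
  have hm' : (conj X) ^ 2 + (conj W) ^ 2 + (conj Y) ^ 2 = conj X * conj W * conj Y := by
    have := congrArg conj hm
    simp only [map_add, map_pow, map_mul] at this
    linear_combination this
  have h' : ‖conj W - I * conj Y‖ ≤ ‖conj X‖ := by
    have e : conj W - I * conj Y = -I * conj (Y - I * W) := by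
      simp only [map_sub, map_mul, conj_I]
      linear_combination (conj W) * I_sq
    rw [e, norm_mul, norm_neg, norm_I, one_mul, Complex.norm_conj, Complex.norm_conj]
    exact h
  have hX' : conj X ≠ 0 := by
    rw [Ne, map_eq_zero]; exact hX
  have := EL1 hm' h' hX'
  simpa only [Complex.norm_conj] using this

/-- A number with `t^2 ≤ 2t + 2x + xt`, `x ≤ 4`, is at most `8`. -/
theorem le8 {t x : ℝ} (ht : 0 ≤ t) (hx : x ≤ 4) (h : t ^ 2 ≤ 2 * t + 2 * x + x * t) : t ≤ 8 := by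
  nlinarith

/-- The minimum of the three sides is at most `4`. -/
theorem min4 {X Y W : ℂ} (hm : X ^ 2 + Y ^ 2 + W ^ 2 = X * Y * W)
    (h1 : ‖X‖ ≤ ‖Y‖ + ‖W‖) (h2 : ‖Y‖ ≤ ‖X‖ + ‖W‖) (h3 : ‖W‖ ≤ ‖X‖ + ‖Y‖) :
    ‖X‖ ≤ 4 ∨ ‖Y‖ ≤ 4 ∨ ‖W‖ ≤ 4 := by
  by_contra hc
  push Not at hc
  obtain ⟨hx, hy, hw⟩ := hc
  have hh : ‖X‖ * ‖Y‖ * ‖W‖ ≤ ‖X‖ ^ 2 + ‖Y‖ ^ 2 + ‖W‖ ^ 2 := by
    calc ‖X‖ * ‖Y‖ * ‖W‖ = ‖X * Y * W‖ := by rw [norm_mul, norm_mul]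
      _ = ‖X ^ 2 + Y ^ 2 + W ^ 2‖ := by rw [hm]
      _ ≤ ‖X ^ 2 + Y ^ 2‖ + ‖W ^ 2‖ := norm_add_le _ _
      _ ≤ ‖X ^ 2‖ + ‖Y ^ 2‖ + ‖W ^ 2‖ := by gcongr; exact norm_add_le _ _
      _ = _ := by rw [norm_pow, norm_pow, norm_pow]
  -- key: for x the minimum: x y w ≤ 4 y w
  have key : ∀ x y w : ℝ, 4 < x → x ≤ y → x ≤ w → y ≤ x + w → w ≤ x + y → x * y * w ≤ x ^ 2 + y ^ 2 + w ^ 2 → False := by
    intro x y w hx hxy hxw h1 h2 h3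
    have a1 : x ^ 2 ≤ y * w := by nlinarith
    have a2 : (y - w) ^ 2 ≤ x ^ 2 := by
      rw [sq_le_sq]
      rw [abs_of_pos (by linarith : 0 < x)]
      rw [abs_le]; constructor <;> linarith
    have a3 : 0 < y * w := by
      apply mul_pos <;> linarith
    nlinarith
  rcases le_total ‖X‖ ‖Y‖ with a | a
  · rcases le_total ‖X‖ ‖W‖ with b | b
    · exact key ‖X‖ ‖Y‖ ‖W‖ hx a b h2 h3 hh
    · exact key ‖W‖ ‖X‖ ‖Y‖ hw b (b.trans a) (by linarith) (by linarith) (by nlinarith)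
  · rcases le_total ‖Y‖ ‖W‖ with b | b
    · exact key ‖Y‖ ‖X‖ ‖W‖ hy a b (by linarith) (by linarith) (by nlinarith)
    · exact key ‖W‖ ‖X‖ ‖Y‖ hw (b.trans a) b (by linarith) (by linarith) (by nlinarith)

/-- Sizes at a turn: all four numbers are at most `16`. -/
theorem TURN16 {L N R N' : ℂ} (hm : L ^ 2 + N ^ 2 + R ^ 2 = L * N * R) (hN' : N' = N * R - L)
    (hN0 : N ≠ 0) (hR0 : R ≠ 0) (hN'0 : N' ≠ 0)
    (a1 : ‖L - I * R‖ ≤ ‖N‖) (a2 : ‖N - I * R‖ ≤ ‖N'‖) (a3 : ‖N'‖ ≤ ‖N + I * R‖) (a4 : ‖N - I * N'‖ ≤ ‖R‖) :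
    ‖L‖ ≤ 16 ∧ ‖N‖ ≤ 16 ∧ ‖R‖ ≤ 16 ∧ ‖N'‖ ≤ 16 := by
  have hm' : N ^ 2 + N' ^ 2 + R ^ 2 = N * N' * R := by
    rw [hN']; linear_combination hm
  have nR : ‖I * R‖ = ‖R‖ := by rw [norm_mul, norm_I, one_mul]
  have nN' : ‖I * N'‖ = ‖N'‖ := by rw [norm_mul, norm_I, one_mul]
  have t1 : ‖N'‖ ≤ ‖N‖ + ‖R‖ := a3.trans ((norm_add_le _ _).trans (by rw [nR]))
  have t2 : ‖N‖ ≤ ‖N'‖ + ‖R‖ := by
    have := norm_sub_norm_le N (I * R)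
    rw [nR] at this; linarith
  have t3 : ‖R‖ ≤ ‖N‖ + ‖N'‖ := by
    have := norm_sub_norm_le (I * R) N
    rw [nR, norm_sub_rev] at this; linarith
  have t4 : ‖L‖ ≤ ‖N‖ + ‖R‖ := by
    have := norm_sub_norm_le L (I * R)
    rw [nR] at this; linarith
  have n0 := norm_nonneg N
  have n1 := norm_nonneg R
  have n2 := norm_nonneg N'
  have n3 := norm_nonneg L
  rcases min4 hm' (by linarith) (by linarith) (by linarith) with h | h | h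
  · -- N small
    have e1 : N ^ 2 + L ^ 2 + R ^ 2 = N * L * R := by linear_combination hm
    have b1 := le8 n3 h (EL1 e1 a1 hN0)
    have b2 := le8 n1 h (EL2 e1 a1 hN0)
    exact ⟨by linarith, by linarith, by linarith, by linarith⟩
  · -- N' small
    have e1 : N' ^ 2 + N ^ 2 + R ^ 2 = N' * N * R := by linear_combination hm'
    have b1 := le8 n0 h (EL1 e1 a2 hN'0)
    have b2 := le8 n1 h (EL2 e1 a2 hN'0)
    exact ⟨by linarith, by linarith, by linarith, by linarith⟩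
  · -- R small
    have e1 : R ^ 2 + N ^ 2 + N' ^ 2 = R * N * N' := by linear_combination hm'
    have b1 := le8 n0 h (EL1 e1 a4 hR0)
    have b2 := le8 n2 h (EL2 e1 a4 hR0)
    exact ⟨by linarith, by linarith, by linarith, by linarith⟩

end Pool.Agent.M4.III
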