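import Mathlib

/-!
# Project m4: (MP_1b8d20_an, S03975), block III, part 2: compactness at a turn (helper74)
-/

set_option autoImplicit false

namespace Pool.Agent.M4.III

open Complex ComplexConjugate

/-- The sign algebra at a closed turn, in real coordinates: `L = a + ib`, `R = c - id`,
`N = e + if`, `N' = g - ik`. -/
theorem real_turn {a b c d e f g k : ℝ} (ha : 0 ≤ a) (hb : 0 ≤ b) (hc : 0 ≤ c) (hd : 0 ≤ d)
    (he : 0 ≤ e) (hf : 0 ≤ f) (hg : 0 ≤ g) (hk : 0 ≤ k)
    (m1 : a * g + b * k = e ^ 2 - f ^ 2 + c ^ 2 - d ^ 2) (m2 : b * g - a * k = 2 * e * f - 2 * c * d)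
    (a1 : a + g = e * c + f * d) (a2 : b - k = f * c - e * d)
    (LR : 0 ≤ a * c - b * d) (NR : 0 ≤ e * c - f * d) (NP : 0 ≤ e * g - f * k)
    (c1 : (a - d) ^ 2 + (b - c) ^ 2 ≤ e ^ 2 + f ^ 2) (c2 : (e - d) ^ 2 + (f - c) ^ 2 ≤ a ^ 2 + b ^ 2)
    (pL : 0 < a ^ 2 + b ^ 2) (pN : 0 < e ^ 2 + f ^ 2) (pR : 0 < c ^ 2 + d ^ 2) (pP : 0 < g ^ 2 + k ^ 2)
    (g1 : (e * c - f * d) * (f * c + e * d) = 0) (g2 : (e * g - f * k) * (f * g + e * k) = 0) : False := by
  rcases mul_eq_zero.1 g1 with h | h
  · -- N perpendicular to R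
    -- u = L conj R, v = N' conj R
    have hfc : 0 ≤ f * c := mul_nonneg hf hc
    have hed : 0 ≤ e * d := mul_nonneg he hd
    by_cases hz : f * c + e * d = 0
    · have h1 : f * c = 0 := by linarith
      have h2 : e * d = 0 := by linarith
      -- e c = f d, f c = 0, e d = 0: then N = 0 or R = 0
      have h3 : (e ^ 2 + f ^ 2) * (c ^ 2 + d ^ 2) = (e * c - f * d) ^ 2 + (f * c + e * d) ^ 2 := by ring
      rw [h, hz] at h3
      have : 0 < (e ^ 2 + f ^ 2) * (c ^ 2 + d ^ 2) := mul_pos pN pR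
      linarith [h3, this, (by norm_num : (0:ℝ) ^ 2 + 0 ^ 2 = 0)]
    · have hs : 0 < f * c + e * d := lt_of_le_of_ne (by linarith) (Ne.symm hz)
      -- sums
      have hre : (a * c - b * d) + (g * c + k * d) = e * (c ^ 2 + d ^ 2) := by
        have : (a + g) * c - (b - k) * d = (e * c + f * d) * c - (f * c - e * d) * d := by rw [a1, a2]
        linear_combination this
      have him : (b * c + a * d) + (g * d - k * c) = f * (c ^ 2 + d ^ 2) := by
        have : (b - k) * c + (a + g) * d = (f * c - e * d) * c + (e * c + f * d) * d := by rw [a1, a2]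
        linear_combination this
      -- v2 ≥ 0
      have hv2 : 0 ≤ g * d - k * c := by
        -- (e g - f k) (c^2+d^2) = (g d - k c)(f c + e d) + (e c - f d) (...)
        have e1 : (e * g - f * k) * (c ^ 2 + d ^ 2) = (g * d - k * c) * (f * c + e * d) + (e * c - f * d) * (g * c + k * d) := by ring
        rw [h, zero_mul, add_zero] at e1
        have e2 : 0 ≤ (g * d - k * c) * (f * c + e * d) := by rw [← e1]; exact mul_nonneg NP pR.le
        exact nonneg_of_mul_nonneg_left e2 hs
      have hv1 : 0 ≤ g * c + k * d := by positivity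
      have hu2 : 0 ≤ b * c + a * d := by positivity
      -- product
      have hpr : (a * c - b * d) * (g * d - k * c) + (b * c + a * d) * (g * c + k * d) = 0 := by
        -- Im (u v) = Im (L N' conj R^2) = Im ((N^2+R^2) conj R^2)
        have e1 : (a * c - b * d) * (g * d - k * c) + (b * c + a * d) * (g * c + k * d) =
            (a * g + b * k) * (2 * c * d) + (b * g - a * k) * (c ^ 2 - d ^ 2) := by ring
        rw [e1, m1, m2]
        -- Im (N^2 conj R^2) = 2 Re(N conj R) Im (N conj R) = 0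
        have e2 : (e ^ 2 - f ^ 2 + c ^ 2 - d ^ 2) * (2 * c * d) + (2 * e * f - 2 * c * d) * (c ^ 2 - d ^ 2) =
            2 * ((e * c - f * d) * (f * c + e * d)) := by ring
        rw [e2, g1, mul_zero]
      have q1 : 0 ≤ (a * c - b * d) * (g * d - k * c) := mul_nonneg LR hv2
      have q2 : 0 ≤ (b * c + a * d) * (g * c + k * d) := mul_nonneg hu2 hv1
      have r1 : (a * c - b * d) * (g * d - k * c) = 0 := by linarith
      have r2 : (b * c + a * d) * (g * c + k * d) = 0 := by linarith
      have nu : 0 < (a * c - b * d) ^ 2 + (b * c + a * d) ^ 2 := by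
        have : (a * c - b * d) ^ 2 + (b * c + a * d) ^ 2 = (a ^ 2 + b ^ 2) * (c ^ 2 + d ^ 2) := by ring
        rw [this]; exact mul_pos pL pR
      have nv : 0 < (g * c + k * d) ^ 2 + (g * d - k * c) ^ 2 := by
        have : (g * c + k * d) ^ 2 + (g * d - k * c) ^ 2 = (g ^ 2 + k ^ 2) * (c ^ 2 + d ^ 2) := by ring
        rw [this]; exact mul_pos pP pR
      rcases mul_eq_zero.1 r2 with hu | hv
      · -- u2 = 0, hence u1 ≠ 0, v2 = 0
        have hu1 : a * c - b * d ≠ 0 := by
          intro h0; rw [h0, hu] at nu; norm_num at nu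
        have hv20 : g * d - k * c = 0 := (mul_eq_zero.1 r1).resolve_left hu1
        have hf0 : f = 0 := by
          have : f * (c ^ 2 + d ^ 2) = 0 := by rw [← him, hu, hv20, add_zero]
          exact (mul_eq_zero.1 this).resolve_right pR.ne'
        have he0 : 0 < e := by
          rcases he.lt_or_eq with h0 | h0
          · exact h0
          · exfalso; rw [hf0, ← h0] at pN; norm_num at pN
        have hc0 : c = 0 := by
          have : e * c = 0 := by rw [hf0] at h; linarith
          exact (mul_eq_zero.1 this).resolve_left he0.ne'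
        have hd0 : 0 < d := by
          rcases hd.lt_or_eq with h0 | h0
          · exact h0
          · exfalso; rw [hc0, ← h0] at pR; norm_num at pR
        have ha0 : a = 0 := by
          have : a * d = 0 := by rw [hc0] at hu; linarith
          exact (mul_eq_zero.1 this).resolve_right hd0.ne'
        have hb0 : 0 < b := by
          rcases hb.lt_or_eq with h0 | h0
          · exact h0
          · exfalso; rw [ha0, ← h0] at pL; norm_num at pL
        rw [ha0, hc0] at LR
        have := mul_pos hb0 hd0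
        linarith
      · -- v1 = 0, v2 ≠ 0, u1 = 0
        have hv2' : g * d - k * c ≠ 0 := by
          intro h0; rw [h0, hv] at nv; norm_num at nv
        have hu1 : a * c - b * d = 0 := (mul_eq_zero.1 r1).resolve_right hv2'
        have he0 : e = 0 := by
          have : e * (c ^ 2 + d ^ 2) = 0 := by rw [← hre, hu1, hv, add_zero]
          exact (mul_eq_zero.1 this).resolve_right pR.ne'
        have hf0 : 0 < f := by
          rcases hf.lt_or_eq with h0 | h0
          · exact h0
          · exfalso; rw [he0, ← h0] at pN; norm_num at pN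
        have hd0 : d = 0 := by
          have : f * d = 0 := by rw [he0] at h; linarith
          exact (mul_eq_zero.1 this).resolve_left hf0.ne'
        have hc0 : 0 < c := by
          rcases hc.lt_or_eq with h0 | h0
          · exact h0
          · exfalso; rw [hd0, ← h0] at pR; norm_num at pR
        have : 0 ≤ -(k * c) := by rw [hd0] at hv2; linarith
        have h5 : 0 ≤ k * c := mul_nonneg hk hc
        have h6 : k * c = 0 := by linarith
        apply hv2'
        rw [hd0, h6]; ring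
  · -- N, R real
    have h1 : f * c = 0 := by
      have := mul_nonneg hf hc; have := mul_nonneg he hd; linarith
    have h2 : e * d = 0 := by
      have := mul_nonneg hf hc; have := mul_nonneg he hd; linarith
    have he0 : 0 < e := by
      rcases he.lt_or_eq with h0 | h0
      · exact h0
      · exfalso
        have hf0 : 0 < f := by
          rcases hf.lt_or_eq with h3 | h3
          · exact h3
          · rw [← h0, ← h3] at pN; norm_num at pN
        have hc0 : c = 0 := (mul_eq_zero.1 h1).resolve_left hf0.ne'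
        have hd0 : 0 < d := by
          rcases hd.lt_or_eq with h3 | h3
          · exact h3
          · rw [hc0, ← h3] at pR; norm_num at pR
        rw [← h0] at NR
        have := mul_pos hf0 hd0
        linarith
    have hd0 : d = 0 := (mul_eq_zero.1 h2).resolve_left he0.ne'
    have hc0 : 0 < c := by
      rcases hc.lt_or_eq with h3 | h3
      · exact h3
      · exfalso; rw [hd0, ← h3] at pR; norm_num at pR
    have hf0 : f = 0 := (mul_eq_zero.1 h1).resolve_right hc0.ne'
    rw [hf0, zero_mul, zero_mul, sub_zero, zero_add] at g2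
    have h5 : g * k = 0 := by
      have : (e * e) * (g * k) = 0 := by rw [← g2]; ring
      exact (mul_eq_zero.1 this).resolve_left (mul_pos he0 he0).ne'
    rcases mul_eq_zero.1 h5 with h6 | h6
    · -- g = 0
      rw [hd0, hf0, h6] at m2
      rw [hd0, hf0, h6] at a1
      have hk0 : 0 < k := by
        rcases hk.lt_or_eq with h3 | h3
        · exact h3
        · exfalso; rw [h6, ← h3] at pP; norm_num at pP
      have ha0 : a = 0 := by
        have : a * k = 0 := by linarith
        exact (mul_eq_zero.1 this).resolve_right hk0.ne'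
      rw [ha0] at a1
      have := mul_pos he0 hc0
      linarith
    · -- k = 0
      rw [hd0, hf0] at a2
      have hb0 : b = 0 := by rw [h6] at a2; linarith
      rw [hd0, hf0, hb0] at c1 c2
      have := mul_pos hc0 hc0
      nlinarith

/-- Twice this number over `‖Y^2+W^2‖^2` is the imaginary part of `Y^2/(Y^2+W^2)`. -/
noncomputable def gg (Y W : ℂ) : ℝ := (Y * conj W).re * (Y * conj W).im

/-- The closed conditions at a turn. -/
structure TurnC (L N R N' : ℂ) : Prop where
  mul : L * N' = N ^ 2 + R ^ 2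
  add : L + N' = N * R
  Lre : 0 ≤ L.re
  Lim : 0 ≤ L.im
  Rre : 0 ≤ R.re
  Rim : R.im ≤ 0
  Nre : 0 ≤ N.re
  Nim : 0 ≤ N.im
  Pre : 0 ≤ N'.re
  Pim : N'.im ≤ 0
  LR : 0 ≤ (L * conj R).re
  NR : 0 ≤ (N * conj R).re
  NP : 0 ≤ (N * conj N').re
  c1 : ‖L - I * R‖ ≤ ‖N‖
  c2 : ‖N - I * R‖ ≤ ‖L‖
  Lone : 1 ≤ ‖L‖
  None : 1 ≤ ‖N‖
  Rone : 1 ≤ ‖R‖
  Pone : 1 ≤ ‖N'‖

theorem gg_nonneg1 {L N R N' : ℂ} (h : TurnC L N R N') : 0 ≤ gg N R := by
  apply mul_nonneg h.NR
  simp only [mul_im, conj_re, conj_im]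
  have h1 := mul_nonneg h.Nim h.Rre
  have h2 := mul_nonneg h.Nre (neg_nonneg.2 h.Rim)
  linarith

theorem gg_nonneg2 {L N R N' : ℂ} (h : TurnC L N R N') : 0 ≤ gg N N' := by
  apply mul_nonneg h.NP
  simp only [mul_im, conj_re, conj_im]
  have h1 := mul_nonneg h.Nim h.Pre
  have h2 := mul_nonneg h.Nre (neg_nonneg.2 h.Pim)
  linarith

theorem pos_of_norm {x : ℂ} (h : 1 ≤ ‖x‖) : 0 < x.re ^ 2 + x.im ^ 2 := by
  have h1 : 0 < ‖x‖ ^ 2 := by positivity
  rw [Complex.sq_norm, normSq_apply] at h1
  linarith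

/-- At a closed turn not both edges are flat. -/
theorem gg_pos {L N R N' : ℂ} (h : TurnC L N R N') : 0 < gg N R + gg N N' := by
  by_contra hc
  have hc' : gg N R + gg N N' ≤ 0 := not_lt.1 hc
  have g1 := gg_nonneg1 h
  have g2 := gg_nonneg2 h
  have e1 : gg N R = 0 := by linarith
  have e2 : gg N N' = 0 := by linarith
  have pL := pos_of_norm h.Lone
  have pN := pos_of_norm h.None
  have pR := pos_of_norm h.Rone
  have pP := pos_of_norm h.Pone
  have m1 := congrArg Complex.re h.mul
  have m2 := congrArg Complex.im h.mul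
  have a1 := congrArg Complex.re h.add
  have a2 := congrArg Complex.im h.add
  have c1' : ‖L - I * R‖ ^ 2 ≤ ‖N‖ ^ 2 := pow_le_pow_left₀ (norm_nonneg _) h.c1 2
  have c2' : ‖N - I * R‖ ^ 2 ≤ ‖L‖ ^ 2 := pow_le_pow_left₀ (norm_nonneg _) h.c2 2
  have l1 := h.LR
  have l2 := h.NR
  have l3 := h.NP
  rw [Complex.sq_norm, Complex.sq_norm, normSq_apply, normSq_apply] at c1' c2'
  simp only [mul_re, mul_im, add_re, add_im, pow_two] at m1 m2 a1 a2
  simp only [mul_re, conj_re, conj_im] at l1 l2 l3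
  simp only [sub_re, sub_im, mul_re, mul_im, I_re, I_im] at c1' c2'
  unfold gg at e1 e2
  simp only [mul_re, mul_im, conj_re, conj_im] at e1 e2
  refine real_turn (a := L.re) (b := L.im) (c := R.re) (d := -R.im) (e := N.re) (f := N.im) (g := N'.re) (k := -N'.im)
    h.Lre h.Lim h.Rre (neg_nonneg.2 h.Rim) h.Nre h.Nim h.Pre (neg_nonneg.2 h.Pim)
    (by linarith) (by linarith) (by linarith) (by linarith) (by linarith) (by linarith) (by linarith)
    (by nlinarith) (by nlinarith) pL pN (by rw [neg_sq]; exact pR) (by rw [neg_sq]; exact pP) (by linarith) (by linarith)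

/-- the compact set of the closed turns of size at most `16`. -/
def KT : Set (ℂ × ℂ × ℂ × ℂ) :=
  {p | TurnC p.1 p.2.1 p.2.2.1 p.2.2.2 ∧ ‖p.1‖ ≤ 16 ∧ ‖p.2.1‖ ≤ 16 ∧ ‖p.2.2.1‖ ≤ 16 ∧ ‖p.2.2.2‖ ≤ 16}

theorem KT_compact : IsCompact KT := by
  have hcl : IsClosed KT := by
    have e : KT = {p : ℂ × ℂ × ℂ × ℂ | p.1 * p.2.2.2 = p.2.1 ^ 2 + p.2.2.1 ^ 2} ∩
        ({p | p.1 + p.2.2.2 = p.2.1 * p.2.2.1} ∩ ({p | 0 ≤ p.1.re} ∩ ({p | 0 ≤ p.1.im} ∩ ({p | 0 ≤ p.2.2.1.re} ∩
        ({p | p.2.2.1.im ≤ 0} ∩ ({p | 0 ≤ p.2.1.re} ∩ ({p | 0 ≤ p.2.1.im} ∩ ({p | 0 ≤ p.2.2.2.re} ∩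
        ({p | p.2.2.2.im ≤ 0} ∩ ({p | 0 ≤ (p.1 * conj p.2.2.1).re} ∩ ({p | 0 ≤ (p.2.1 * conj p.2.2.1).re} ∩
        ({p | 0 ≤ (p.2.1 * conj p.2.2.2).re} ∩ ({p | ‖p.1 - I * p.2.2.1‖ ≤ ‖p.2.1‖} ∩ ({p | ‖p.2.1 - I * p.2.2.1‖ ≤ ‖p.1‖} ∩
        ({p | 1 ≤ ‖p.1‖} ∩ ({p | 1 ≤ ‖p.2.1‖} ∩ ({p | 1 ≤ ‖p.2.2.1‖} ∩ ({p | 1 ≤ ‖p.2.2.2‖} ∩
        ({p | ‖p.1‖ ≤ 16} ∩ ({p | ‖p.2.1‖ ≤ 16} ∩ ({p | ‖p.2.2.1‖ ≤ 16} ∩ {p | ‖p.2.2.2‖ ≤ 16}))))))))))))))))))))) := by
      ext p
      constructor
      · rintro ⟨⟨h1, h2, h3, h4, h5, h6, h7, h8, h9, h10, h11, h12, h13, h14, h15, h16, h17, h18, h19⟩, k1, k2, k3, k4⟩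
        exact ⟨h1, h2, h3, h4, h5, h6, h7, h8, h9, h10, h11, h12, h13, h14, h15, h16, h17, h18, h19, k1, k2, k3, k4⟩
      · rintro ⟨h1, h2, h3, h4, h5, h6, h7, h8, h9, h10, h11, h12, h13, h14, h15, h16, h17, h18, h19, k1, k2, k3, k4⟩
        exact ⟨⟨h1, h2, h3, h4, h5, h6, h7, h8, h9, h10, h11, h12, h13, h14, h15, h16, h17, h18, h19⟩, k1, k2, k3, k4⟩
    rw [e]
    have p1 : Continuous fun p : ℂ × ℂ × ℂ × ℂ => p.1 := continuous_fst
    have p2 : Continuous fun p : ℂ × ℂ × ℂ × ℂ => p.2.1 := continuous_fst.comp continuous_snd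
    have p3 : Continuous fun p : ℂ × ℂ × ℂ × ℂ => p.2.2.1 := continuous_fst.comp (continuous_snd.comp continuous_snd)
    have p4 : Continuous fun p : ℂ × ℂ × ℂ × ℂ => p.2.2.2 := continuous_snd.comp (continuous_snd.comp continuous_snd)
    refine IsClosed.inter (isClosed_eq (p1.mul p4) ((p2.pow 2).add (p3.pow 2))) ?_
    refine IsClosed.inter (isClosed_eq (p1.add p4) (p2.mul p3)) ?_
    refine IsClosed.inter (isClosed_le continuous_const (continuous_re.comp p1)) ?_
    refine IsClosed.inter (isClosed_le continuous_const (continuous_im.comp p1)) ?_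
    refine IsClosed.inter (isClosed_le continuous_const (continuous_re.comp p3)) ?_
    refine IsClosed.inter (isClosed_le (continuous_im.comp p3) continuous_const) ?_
    refine IsClosed.inter (isClosed_le continuous_const (continuous_re.comp p2)) ?_
    refine IsClosed.inter (isClosed_le continuous_const (continuous_im.comp p2)) ?_
    refine IsClosed.inter (isClosed_le continuous_const (continuous_re.comp p4)) ?_
    refine IsClosed.inter (isClosed_le (continuous_im.comp p4) continuous_const) ?_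
    refine IsClosed.inter (isClosed_le continuous_const (continuous_re.comp (p1.mul (continuous_conj.comp p3)))) ?_
    refine IsClosed.inter (isClosed_le continuous_const (continuous_re.comp (p2.mul (continuous_conj.comp p3)))) ?_
    refine IsClosed.inter (isClosed_le continuous_const (continuous_re.comp (p2.mul (continuous_conj.comp p4)))) ?_
    refine IsClosed.inter (isClosed_le (p1.sub (continuous_const.mul p3)).norm p2.norm) ?_
    refine IsClosed.inter (isClosed_le (p2.sub (continuous_const.mul p3)).norm p1.norm) ?_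
    refine IsClosed.inter (isClosed_le continuous_const p1.norm) ?_
    refine IsClosed.inter (isClosed_le continuous_const p2.norm) ?_
    refine IsClosed.inter (isClosed_le continuous_const p3.norm) ?_
    refine IsClosed.inter (isClosed_le continuous_const p4.norm) ?_
    refine IsClosed.inter (isClosed_le p1.norm continuous_const) ?_
    refine IsClosed.inter (isClosed_le p2.norm continuous_const) ?_
    exact IsClosed.inter (isClosed_le p3.norm continuous_const) (isClosed_le p4.norm continuous_const)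
  have hb : Bornology.IsBounded KT := by
    rw [isBounded_iff_forall_norm_le]
    refine ⟨16, ?_⟩
    rintro ⟨p, q, r, s⟩ ⟨-, h1, h2, h3, h4⟩
    simp only [Prod.norm_mk]
    exact max_le h1 (max_le h2 (max_le h3 h4))
  exact Metric.isCompact_of_isClosed_isBounded hcl hb

/-- At every turn one of the two crossed edges is not flat, uniformly. -/
theorem TURNC : ∃ c0 : ℝ, 0 < c0 ∧ ∀ L N R N' : ℂ, TurnC L N R N' → ‖L‖ ≤ 16 → ‖N‖ ≤ 16 → ‖R‖ ≤ 16 → ‖N'‖ ≤ 16 →
    c0 ≤ gg N R + gg N N' := by
  rcases KT.eq_empty_or_nonempty with h | h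
  · refine ⟨1, one_pos, fun L N R N' ht h1 h2 h3 h4 => ?_⟩
    have : (L, N, R, N') ∈ KT := ⟨ht, h1, h2, h3, h4⟩
    rw [h] at this
    exact absurd this (Set.notMem_empty _)
  · have hcont : Continuous fun p : ℂ × ℂ × ℂ × ℂ => gg p.2.1 p.2.2.1 + gg p.2.1 p.2.2.2 := by
      have p2 : Continuous fun p : ℂ × ℂ × ℂ × ℂ => p.2.1 := continuous_fst.comp continuous_snd
      have p3 : Continuous fun p : ℂ × ℂ × ℂ × ℂ => p.2.2.1 := continuous_fst.comp (continuous_snd.comp continuous_snd)
      have p4 : Continuous fun p : ℂ × ℂ × ℂ × ℂ => p.2.2.2 := continuous_snd.comp (continuous_snd.comp continuous_snd)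
      unfold gg
      exact ((continuous_re.comp (p2.mul (continuous_conj.comp p3))).mul (continuous_im.comp (p2.mul (continuous_conj.comp p3)))).add
        ((continuous_re.comp (p2.mul (continuous_conj.comp p4))).mul (continuous_im.comp (p2.mul (continuous_conj.comp p4))))
    obtain ⟨x, hx, hmin⟩ := KT_compact.exists_isMinOn h hcont.continuousOn
    refine ⟨gg x.2.1 x.2.2.1 + gg x.2.1 x.2.2.2, gg_pos hx.1, fun L N R N' ht h1 h2 h3 h4 => ?_⟩
    exact hmin (a := (L, N, R, N')) ⟨ht, h1, h2, h3, h4⟩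

end Pool.Agent.M4.III
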