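import Mathlib

/-!
# Project m4: (MP_1b8d20_an, S03975), block III, part 3: no infinite run, Cauchy estimate (helper74)
-/

set_option autoImplicit false

namespace Pool.Agent.M4.III

open Complex ComplexConjugate Filter Topology

/-- A fan with a nonreal pivot grows exponentially, in particular not linearly. -/
theorem RUN {R : ℂ} (hR : R.im ≠ 0) (x : ℕ → ℂ) (hx : ∀ k, x (k + 2) = R * x (k + 1) - x k)
    (hm : x 0 ^ 2 + x 1 ^ 2 + R ^ 2 = R * x 0 * x 1) (hlin : ∀ k, ‖x (k + 1)‖ ≤ ‖x k‖ + ‖R‖) : False := by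
  have hR0 : R ≠ 0 := by rintro rfl; simp at hR
  obtain ⟨m, hmu⟩ : ∃ m : ℂ, m ^ 2 - R * m + 1 = 0 := by
    obtain ⟨s, hs⟩ := IsAlgClosed.exists_pow_nat_eq (R ^ 2 - 4) (n := 2) (by norm_num)
    refine ⟨(R + s) / 2, ?_⟩
    field_simp
    linear_combination hs
  have hm0 : m ≠ 0 := by rintro rfl; norm_num at hmu
  -- one of the two roots has modulus > 1
  obtain ⟨u, hu0, hu, hu1⟩ : ∃ u : ℂ, u ≠ 0 ∧ u ^ 2 - R * u + 1 = 0 ∧ 1 < ‖u‖ := by
    rcases lt_trichotomy ‖m‖ 1 with h | h | h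
    · refine ⟨m⁻¹, inv_ne_zero hm0, ?_, ?_⟩
      · field_simp
        linear_combination hmu
      · rw [norm_inv]
        exact one_lt_inv_iff₀.2 ⟨norm_pos_iff.2 hm0, h⟩
    · exfalso
      apply hR
      have e : R = m + conj m := by
        have h1 : m * conj m = 1 := by
          rw [Complex.mul_conj, Complex.normSq_eq_norm_sq, h]; norm_num
        have h2 : m * R = m * (m + conj m) := by linear_combination -hmu - h1
        exact mul_left_cancel₀ hm0 h2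
      rw [e]; simp
    · exact ⟨m, hm0, hmu, h⟩
  -- d_k
  have hd : ∀ k, x (k + 1) - u⁻¹ * x k = u ^ k * (x 1 - u⁻¹ * x 0) := by
    intro k
    induction k with
    | zero => simp
    | succ k ih =>
      have h1 : R = u + u⁻¹ := by
        field_simp
        linear_combination -hu
      rw [hx k, pow_succ, mul_assoc, mul_comm u (x 1 - u⁻¹ * x 0), ← mul_assoc, ← ih, h1]
      field_simp
      ring
  have hd0 : x 1 - u⁻¹ * x 0 ≠ 0 := by
    intro h
    have h2 : (x 1 - u⁻¹ * x 0) * (x 1 - u * x 0) = -R ^ 2 := by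
      have h3 : R = u + u⁻¹ := by
        field_simp
        linear_combination -hu
      have h4 : u⁻¹ * u = 1 := inv_mul_cancel₀ hu0
      have h5 : (x 1 - u⁻¹ * x 0) * (x 1 - u * x 0) = x 1 ^ 2 - (u + u⁻¹) * x 0 * x 1 + (u⁻¹ * u) * x 0 ^ 2 := by ring
      rw [h5, h4, ← h3]
      linear_combination hm
    rw [h, zero_mul] at h2
    have : R ^ 2 = 0 := by linear_combination h2
    exact hR0 (pow_eq_zero_iff (by norm_num) |>.1 this)
  have hlin2 : ∀ k : ℕ, ‖x k‖ ≤ ‖x 0‖ + k * ‖R‖ := by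
    intro k
    induction k with
    | zero => simp
    | succ k ih =>
      have := hlin k
      push_cast
      linarith
  have hui : ‖u⁻¹‖ ≤ 1 := by
    rw [norm_inv]
    exact inv_le_one_of_one_le₀ hu1.le
  have hexp : ∀ k : ℕ, ‖u‖ ^ k * ‖x 1 - u⁻¹ * x 0‖ ≤ (2 * ‖x 0‖ + ‖R‖) + k * (2 * ‖R‖) := by
    intro k
    calc ‖u‖ ^ k * ‖x 1 - u⁻¹ * x 0‖ = ‖x (k + 1) - u⁻¹ * x k‖ := by rw [hd k, norm_mul, norm_pow]
      _ ≤ ‖x (k + 1)‖ + ‖u⁻¹ * x k‖ := norm_sub_le _ _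
      _ ≤ ‖x (k + 1)‖ + ‖x k‖ := by
          rw [norm_mul]
          have := mul_le_mul_of_nonneg_right hui (norm_nonneg (x k))
          linarith
      _ ≤ _ := by
          have h1 := hlin2 (k + 1)
          have h2 := hlin2 k
          push_cast at h1
          linarith
  -- contradiction
  have hpos : 0 < ‖x 1 - u⁻¹ * x 0‖ := norm_pos_iff.2 hd0
  have t1 : Tendsto (fun n : ℕ => (n : ℝ) ^ 0 / ‖u‖ ^ n) atTop (𝓝 0) := tendsto_pow_const_div_const_pow_of_one_lt 0 hu1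
  have t2 : Tendsto (fun n : ℕ => (n : ℝ) ^ 1 / ‖u‖ ^ n) atTop (𝓝 0) := tendsto_pow_const_div_const_pow_of_one_lt 1 hu1
  have t3 : Tendsto (fun n : ℕ => (2 * ‖x 0‖ + ‖R‖) * ((n : ℝ) ^ 0 / ‖u‖ ^ n) + (2 * ‖R‖) * ((n : ℝ) ^ 1 / ‖u‖ ^ n)) atTop (𝓝 0) := by
    have := (t1.const_mul (2 * ‖x 0‖ + ‖R‖)).add (t2.const_mul (2 * ‖R‖))
    simpa using this
  have h6 : ‖x 1 - u⁻¹ * x 0‖ ≤ 0 := by
    refine ge_of_tendsto t3 (Eventually.of_forall fun n => ?_)
    have hp : 0 < ‖u‖ ^ n := by positivity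
    have h7 := hexp n
    have e : (2 * ‖x 0‖ + ‖R‖) * ((n : ℝ) ^ 0 / ‖u‖ ^ n) + (2 * ‖R‖) * ((n : ℝ) ^ 1 / ‖u‖ ^ n) =
        ((2 * ‖x 0‖ + ‖R‖) + n * (2 * ‖R‖)) / ‖u‖ ^ n := by
      rw [pow_zero, pow_one]; field_simp
    rw [e, le_div_iff₀ hp]
    linarith
  linarith

/-- Cauchy estimate for the logarithmic derivative of a function which is at least one in modulus. -/
theorem CAU {f : ℂ → ℂ} (hf : Differentiable ℂ f) {z : ℂ} {r : ℝ} (hr : 0 < r)
    (h1 : ∀ y ∈ Metric.closedBall z r, 1 ≤ ‖f y‖) : ‖z * deriv f z / f z‖ ≤ ‖z‖ * ‖f z‖ / r := by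
  have hz : z ∈ Metric.closedBall z r := Metric.mem_closedBall_self hr.le
  have hne : ∀ y ∈ Metric.closedBall z r, f y ≠ 0 := fun y hy h => by
    have := h1 y hy
    rw [h, norm_zero] at this
    linarith
  have hfz : 0 < ‖f z‖ := norm_pos_iff.2 (hne z hz)
  have hd : DiffContOnCl ℂ (fun y => (f y)⁻¹) (Metric.ball z r) := by
    have h2 : DifferentiableOn ℂ (fun y => (f y)⁻¹) (Metric.closedBall z r) :=
      fun y hy => (hf y).differentiableWithinAt.inv (hne y hy)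
    apply DifferentiableOn.diffContOnCl
    rw [closure_ball z hr.ne']
    exact h2
  have h3 : ‖deriv (fun y => (f y)⁻¹) z‖ ≤ 1 / r := by
    refine Complex.norm_deriv_le_of_forall_mem_sphere_norm_le hr hd fun y hy => ?_
    rw [norm_inv]
    exact inv_le_one_of_one_le₀ (h1 y (Metric.sphere_subset_closedBall hy))
  have h4 : deriv (fun y => (f y)⁻¹) z = -deriv f z / f z ^ 2 :=
    ((hf z).hasDerivAt.inv (hne z hz)).deriv
  rw [h4, norm_div, norm_neg, norm_pow, div_le_div_iff₀ (by positivity) hr] at h3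
  rw [norm_div, norm_mul, div_le_div_iff₀ hfz hr]
  have : ‖z‖ * ‖deriv f z‖ * r ≤ ‖z‖ * (1 * ‖f z‖ ^ 2) := by
    rw [mul_assoc]
    exact mul_le_mul_of_nonneg_left h3 (norm_nonneg z)
  nlinarith

end Pool.Agent.M4.III
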