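import Pool.Agent.helper8.M4.ADM
import Pool.Agent.helper95.M4.Final
import Pool.Agent.helper74.M4.ALG
import Pool.Agent.helper74.M4.CPT
import Pool.Agent.helper74.M4.RUN

/-!
# Project M4 (MP_1b8d20, S03975), block III: no infinite chain (helper74)
-/

set_option autoImplicit false

namespace Pool.Agent.M4

open Complex ComplexConjugate Filter Topology

/-- The imaginary part of the weight of an edge. -/
theorem III_wt (Y Z : ℂ) : (Y ^ 2 / (Y ^ 2 + Z ^ 2)).im = 2 * III.gg Y Z / normSq (Y ^ 2 + Z ^ 2) := by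
  have e1 : (Y ^ 2 * conj (Y ^ 2 + Z ^ 2)).im = 2 * III.gg Y Z := by
    unfold III.gg
    simp only [map_add, pow_two, mul_im, mul_re, add_re, add_im, conj_re, conj_im]
    ring
  have e2 : (Y ^ 2 / (Y ^ 2 + Z ^ 2)).im = (Y ^ 2 * conj (Y ^ 2 + Z ^ 2)).im / normSq (Y ^ 2 + Z ^ 2) := by
    rw [div_im, mul_im, conj_re, conj_im]
    ring
  rw [e2, e1]

/-- Lower bound of the weight. -/
theorem III_wt_ge {Y Z : ℂ} (h1 : 0 < (Y * conj Z).re) (h2 : 0 < (Y * conj Z).im) (hY : ‖Y‖ ≤ 16) (hZ : ‖Z‖ ≤ 16) :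
    III.gg Y Z / 131072 ≤ (Y ^ 2 / (Y ^ 2 + Z ^ 2)).im := by
  obtain ⟨hne, -⟩ := OMP_wt h1 h2
  have hg : 0 ≤ III.gg Y Z := (mul_pos h1 h2).le
  rw [III_wt]
  have hp : 0 < normSq (Y ^ 2 + Z ^ 2) := normSq_pos.2 hne
  have hn : normSq (Y ^ 2 + Z ^ 2) ≤ 262144 := by
    rw [Complex.normSq_eq_norm_sq]
    have h3 : ‖Y ^ 2 + Z ^ 2‖ ≤ 512 := by
      calc ‖Y ^ 2 + Z ^ 2‖ ≤ ‖Y ^ 2‖ + ‖Z ^ 2‖ := norm_add_le _ _
        _ = ‖Y‖ ^ 2 + ‖Z‖ ^ 2 := by rw [norm_pow, norm_pow]
        _ ≤ 512 := by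
          have a1 : ‖Y‖ ^ 2 ≤ 16 ^ 2 := pow_le_pow_left₀ (norm_nonneg _) hY 2
          have a2 : ‖Z‖ ^ 2 ≤ 16 ^ 2 := pow_le_pow_left₀ (norm_nonneg _) hZ 2
          linarith
    calc ‖Y ^ 2 + Z ^ 2‖ ^ 2 ≤ 512 ^ 2 := pow_le_pow_left₀ (norm_nonneg _) h3 2
      _ = 262144 := by norm_num
  rw [div_le_div_iff₀ (by norm_num) hp]
  nlinarith [mul_nonneg hg (sub_nonneg.2 hn)]

/-- The energy after dropping `L`. -/
theorem III_omL {w : List Bool} {z : ℂ} (h : Ch w z) (g : GoL (Lf w z) (Nf w z) (Rf w z)) :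
    Om (true :: w) z = Om w z + 2 * (Nf w z ^ 2 / (Nf w z ^ 2 + Rf w z ^ 2)).im * ‖zN w z - zR w z‖ ^ 2 := by
  have had := ADM w z h
  obtain ⟨dL, dN, dR⟩ := Diff_Tr w
  have hmk : ∀ y, Mk (Lf w y) (Nf w y) (Rf w y) := Mk_Tr w
  obtain ⟨hs, hp⟩ := OMP_wt g.re (GoL_im had g)
  have dK : Differentiable ℂ (Nf (true :: w)) := (Diff_Tr (true :: w)).2.1
  have hrel := dl_rel (z := z) dL dN dR dK (fun y => by
    have h2 := hmk y
    unfold Mk at h2
    show Lf w y * (Nf w y * Rf w y - Lf w y) = _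
    linear_combination -h2) had.N0 had.R0 hs
  exact OMP_id _ (zL w z) (zN w z) (zR w z) (zN (true :: w) z) hrel

/-- The energy after dropping `R`. -/
theorem III_omR {w : List Bool} {z : ℂ} (h : Ch w z) (g : GoR (Lf w z) (Nf w z) (Rf w z)) :
    Om (false :: w) z = Om w z + 2 * (Lf w z ^ 2 / (Lf w z ^ 2 + Nf w z ^ 2)).im * ‖zL w z - zN w z‖ ^ 2 := by
  have had := ADM w z h
  obtain ⟨dL, dN, dR⟩ := Diff_Tr w
  have hmk : ∀ y, Mk (Lf w y) (Nf w y) (Rf w y) := Mk_Tr w
  obtain ⟨hs, hp⟩ := OMP_wt g.re (GoR_im had g)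
  have dK : Differentiable ℂ (Nf (false :: w)) := (Diff_Tr (false :: w)).2.1
  have hrel := dl_rel (z := z) dR dL dN dK (fun y => by
    have h2 := hmk y
    unfold Mk at h2
    show Rf w y * (Lf w y * Nf w y - Rf w y) = _
    linear_combination -h2) had.L0 had.N0 hs
  have h2 := OMP_id _ (zR w z) (zL w z) (zN w z) (zN (false :: w) z) hrel
  have e0 : (conj (zR w z) * zL w z + conj (zL w z) * zN w z + conj (zN w z) * zR w z).im = Om w z := by
    unfold Om
    congr 1
    ring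
  rw [← e0]
  exact h2

/-- The energy is bounded by the product of any two differences. -/
theorem III_om_le (w : List Bool) (z : ℂ) : Om w z ≤ ‖zL w z - zN w z‖ * ‖zN w z - zR w z‖ := by
  have e : Om w z = -((zL w z - zN w z) * conj (zN w z - zR w z)).im := by
    unfold Om
    simp only [map_sub, mul_im, add_im, sub_im, sub_re, conj_re, conj_im]
    ring
  rw [e]
  calc -((zL w z - zN w z) * conj (zN w z - zR w z)).im ≤ |((zL w z - zN w z) * conj (zN w z - zR w z)).im| := neg_le_abs _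
    _ ≤ ‖(zL w z - zN w z) * conj (zN w z - zR w z)‖ := Complex.abs_im_le_norm _
    _ = _ := by rw [norm_mul, Complex.norm_conj]

/-- One step, drop `L`, in a bounded triple. -/
theorem III_stepL {w : List Bool} {z : ℂ} (h : Ch w z) (g : GoL (Lf w z) (Nf w z) (Rf w z)) {M c1 : ℝ} (hc1 : 0 < c1) (hM : 0 < M)
    (hN : ‖Nf w z‖ ≤ 16) (hR : ‖Rf w z‖ ≤ 16) (hq : ‖zL w z - zN w z‖ ≤ M) (hOm : c1 ≤ Om w z) :
    Om w z + III.gg (Nf w z) (Rf w z) / 65536 * (c1 / M) ^ 2 ≤ Om (true :: w) z := by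
  have had := ADM w z h
  have h1 := III_wt_ge g.re (GoL_im had g) hN hR
  have hg : 0 ≤ III.gg (Nf w z) (Rf w z) := (mul_pos g.re (GoL_im had g)).le
  have h2 : c1 / M ≤ ‖zN w z - zR w z‖ := by
    rw [div_le_iff₀ hM]
    have := III_om_le w z
    nlinarith [norm_nonneg (zN w z - zR w z), norm_nonneg (zL w z - zN w z)]
  have h3 : (c1 / M) ^ 2 ≤ ‖zN w z - zR w z‖ ^ 2 := pow_le_pow_left₀ (by positivity) h2 2
  rw [III_omL h g]
  have h4 : III.gg (Nf w z) (Rf w z) / 65536 * (c1 / M) ^ 2 ≤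
      2 * (Nf w z ^ 2 / (Nf w z ^ 2 + Rf w z ^ 2)).im * ‖zN w z - zR w z‖ ^ 2 := by
    calc III.gg (Nf w z) (Rf w z) / 65536 * (c1 / M) ^ 2 = 2 * (III.gg (Nf w z) (Rf w z) / 131072) * (c1 / M) ^ 2 := by ring
      _ ≤ 2 * (Nf w z ^ 2 / (Nf w z ^ 2 + Rf w z ^ 2)).im * ‖zN w z - zR w z‖ ^ 2 := by
        apply mul_le_mul _ h3 (by positivity) (by linarith [div_nonneg hg (by norm_num : (0:ℝ) ≤ 131072)])
        linarith
  linarith

/-- One step, drop `R`, in a bounded triple. -/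
theorem III_stepR {w : List Bool} {z : ℂ} (h : Ch w z) (g : GoR (Lf w z) (Nf w z) (Rf w z)) {M c1 : ℝ} (hc1 : 0 < c1) (hM : 0 < M)
    (hL : ‖Lf w z‖ ≤ 16) (hN : ‖Nf w z‖ ≤ 16) (hq : ‖zN w z - zR w z‖ ≤ M) (hOm : c1 ≤ Om w z) :
    Om w z + III.gg (Lf w z) (Nf w z) / 65536 * (c1 / M) ^ 2 ≤ Om (false :: w) z := by
  have had := ADM w z h
  have h1 := III_wt_ge g.re (GoR_im had g) hL hN
  have hg : 0 ≤ III.gg (Lf w z) (Nf w z) := (mul_pos g.re (GoR_im had g)).le
  have h2 : c1 / M ≤ ‖zL w z - zN w z‖ := by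
    rw [div_le_iff₀ hM]
    have := III_om_le w z
    nlinarith [norm_nonneg (zN w z - zR w z), norm_nonneg (zL w z - zN w z)]
  have h3 : (c1 / M) ^ 2 ≤ ‖zL w z - zN w z‖ ^ 2 := pow_le_pow_left₀ (by positivity) h2 2
  rw [III_omR h g]
  have h4 : III.gg (Lf w z) (Nf w z) / 65536 * (c1 / M) ^ 2 ≤
      2 * (Lf w z ^ 2 / (Lf w z ^ 2 + Nf w z ^ 2)).im * ‖zL w z - zN w z‖ ^ 2 := by
    calc III.gg (Lf w z) (Nf w z) / 65536 * (c1 / M) ^ 2 = 2 * (III.gg (Lf w z) (Nf w z) / 131072) * (c1 / M) ^ 2 := by ring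
      _ ≤ 2 * (Lf w z ^ 2 / (Lf w z ^ 2 + Nf w z ^ 2)).im * ‖zL w z - zN w z‖ ^ 2 := by
        apply mul_le_mul _ h3 (by positivity) (by linarith [div_nonneg hg (by norm_num : (0:ℝ) ≤ 131072)])
        linarith
  linarith

/-- The energy does not decrease. -/
theorem III_mono {b : Bool} {w : List Bool} {z : ℂ} (h : Ch (b :: w) z) : Om w z ≤ Om (b :: w) z := by
  obtain ⟨hw, hgo⟩ := h
  have had := ADM w z hw
  cases b with
  | true =>
    have g : GoL (Lf w z) (Nf w z) (Rf w z) := hgo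
    obtain ⟨hs, hp⟩ := OMP_wt g.re (GoL_im had g)
    rw [III_omL hw g]
    have : 0 ≤ 2 * (Nf w z ^ 2 / (Nf w z ^ 2 + Rf w z ^ 2)).im * ‖zN w z - zR w z‖ ^ 2 := by positivity
    linarith
  | false =>
    have g : GoR (Lf w z) (Nf w z) (Rf w z) := hgo
    obtain ⟨hs, hp⟩ := OMP_wt g.re (GoR_im had g)
    rw [III_omR hw g]
    have : 0 ≤ 2 * (Lf w z ^ 2 / (Lf w z ^ 2 + Nf w z ^ 2)).im * ‖zL w z - zN w z‖ ^ 2 := by positivity
    linarith

/-- All entries are at least one in modulus. -/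
theorem III_one {z : ℂ} (h : Good z) (w : List Bool) : 1 ≤ ‖Lf w z‖ ∧ 1 ≤ ‖Nf w z‖ ∧ 1 ≤ ‖Rf w z‖ := by
  induction w with
  | nil =>
    refine ⟨h.one, h.big [], ?_⟩
    show 1 ≤ ‖-I * z‖
    rw [norm_mul, norm_neg, norm_I, one_mul]
    exact h.one
  | cons b w ih =>
    cases b with
    | true => exact ⟨ih.2.1, h.big _, ih.2.2⟩
    | false => exact ⟨ih.1, h.big _, ih.2.1⟩

theorem III_reN {N R : ℂ} (h1 : 0 < (N * conj R).re) (h2 : 0 < R.re) (h3 : R.im < 0) (h4 : 0 < N.im) : 0 < N.re := by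
  simp only [mul_re, conj_re, conj_im] at h1
  by_contra hcon
  push Not at hcon
  have h6 : N.re * R.re ≤ 0 := mul_nonpos_of_nonpos_of_nonneg hcon h2.le
  have h7 : N.im * R.im < 0 := mul_neg_of_pos_of_neg h4 h3
  linarith

/-- A turn (drop `L`, then drop `R`) satisfies the closed conditions. -/
theorem III_turn {L N R : ℂ} (hm : Mk L N R) (ha : Adm L N R) (hg : GoL L N R) (ha' : Adm N (N * R - L) R)
    (hg' : GoR N (N * R - L) R) (h1 : 1 ≤ ‖L‖) (h2 : 1 ≤ ‖N‖) (h3 : 1 ≤ ‖R‖) (h4 : 1 ≤ ‖N * R - L‖) :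
    III.TurnC L N R (N * R - L) ∧ ‖L‖ ≤ 16 ∧ ‖N‖ ≤ 16 ∧ ‖R‖ ≤ 16 ∧ ‖N * R - L‖ ≤ 16 := by
  have hm' : L ^ 2 + N ^ 2 + R ^ 2 = L * N * R := hm
  refine ⟨⟨?_, by ring, ha.reL.le, ha.imL.le, ha.reR.le, ha.imR.le, ha'.reL.le, ha'.imL.le, ?_, hg'.im.le, ha.gam, hg.re.le, hg'.re.le,
    ha.lo.le, hg.lt.le, h1, h2, h3, h4⟩, ?_⟩
  · linear_combination -hm'
  · -- Re N' > 0
    have e1 := hg'.re
    have e2 := ha'.reL
    have e3 := ha'.imL
    have e4 := hg'.im
    by_contra hcon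
    push Not at hcon
    rw [mul_re, conj_re, conj_im] at e1
    have h6 : N.re * (N * R - L).re ≤ 0 := mul_nonpos_of_nonneg_of_nonpos e2.le hcon.le
    have h7 : N.im * (N * R - L).im < 0 := mul_neg_of_pos_of_neg e3 e4
    linarith
  · exact III.TURN16 hm' rfl (by rintro rfl; simp at h2; linarith) (by rintro rfl; simp at h3; linarith)
      (by intro h; rw [h] at h4; simp at h4; linarith) ha.lo.le ha'.lo.le ha'.hi.le hg'.lt.le

/-- The algorithm is deterministic. -/
theorem III_det {z : ℂ} : ∀ {w w' : List Bool}, Ch w z → Ch w' z → w.length = w'.length → w = w' := by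
  intro w
  induction w with
  | nil =>
    intro w' _ _ hl
    cases w' with
    | nil => rfl
    | cons b w' => simp at hl
  | cons b w ih =>
    intro w' h h' hl
    cases w' with
    | nil => simp at hl
    | cons b' w' =>
      have e : w = w' := ih h.1 h'.1 (by simpa using hl)
      subst e
      have h1 := h.2
      have h2 := h'.2
      cases b with
      | true =>
        cases b' with
        | true => rfl
        | false =>
          have g1 : GoL (Lf w z) (Nf w z) (Rf w z) := h1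
          have g2 : GoR (Lf w z) (Nf w z) (Rf w z) := h2
          have := g1.im
          have := g2.im
          linarith
      | false =>
        cases b' with
        | false => rfl
        | true =>
          have g1 : GoR (Lf w z) (Nf w z) (Rf w z) := h1
          have g2 : GoL (Lf w z) (Nf w z) (Rf w z) := h2
          have := g1.im
          have := g2.im
          linarith

/-- An infinite run of drops of `L` is impossible. -/
theorem III_runL {z : ℂ} (w : ℕ → List Bool) (hw : ∀ n, w (n + 1) = true :: w n) (hch : ∀ n, Ch (w n) z) : False := by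
  have hR : ∀ n, Rf (w n) z = Rf (w 0) z := by
    intro n
    induction n with
    | zero => rfl
    | succ n ih => rw [hw n]; exact ih
  have hL : ∀ n, Lf (w (n + 1)) z = Nf (w n) z := by
    intro n; rw [hw n]; rfl
  have hN : ∀ n, Nf (w (n + 1)) z = Nf (w n) z * Rf (w n) z - Lf (w n) z := by
    intro n; rw [hw n]; rfl
  have h0 := ADM (w 0) z (hch 0)
  refine III.RUN (R := Rf (w 0) z) h0.imR.ne (fun n => Lf (w n) z) ?_ ?_ ?_
  · intro k
    show Lf (w (k + 2)) z = Rf (w 0) z * Lf (w (k + 1)) z - Lf (w k) z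
    rw [hL (k + 1), hN k, hL k, hR k]
    ring
  · show Lf (w 0) z ^ 2 + Lf (w 1) z ^ 2 + Rf (w 0) z ^ 2 = Rf (w 0) z * Lf (w 0) z * Lf (w 1) z
    have h1 : Mk (Lf (w 0) z) (Nf (w 0) z) (Rf (w 0) z) := Mk_Tr (w 0) z
    unfold Mk at h1
    rw [hL 0]
    linear_combination h1
  · intro k
    show ‖Lf (w (k + 1)) z‖ ≤ ‖Lf (w k) z‖ + ‖Rf (w 0) z‖
    rw [hL k, ← hR k]
    have h1 : Ch (w (k + 1)) z := hch (k + 1)
    rw [hw k] at h1
    have g : GoL (Lf (w k) z) (Nf (w k) z) (Rf (w k) z) := h1.2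
    have h2 := g.lt
    have h3 := norm_sub_norm_le (Nf (w k) z) (I * Rf (w k) z)
    rw [norm_mul, norm_I, one_mul] at h3
    linarith

/-- An infinite run of drops of `R` is impossible. -/
theorem III_runR {z : ℂ} (w : ℕ → List Bool) (hw : ∀ n, w (n + 1) = false :: w n) (hch : ∀ n, Ch (w n) z) : False := by
  have hL : ∀ n, Lf (w n) z = Lf (w 0) z := by
    intro n
    induction n with
    | zero => rfl
    | succ n ih => rw [hw n]; exact ih
  have hR : ∀ n, Rf (w (n + 1)) z = Nf (w n) z := by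
    intro n; rw [hw n]; rfl
  have hN : ∀ n, Nf (w (n + 1)) z = Lf (w n) z * Nf (w n) z - Rf (w n) z := by
    intro n; rw [hw n]; rfl
  have h0 := ADM (w 0) z (hch 0)
  refine III.RUN (R := Lf (w 0) z) h0.imL.ne' (fun n => Rf (w n) z) ?_ ?_ ?_
  · intro k
    show Rf (w (k + 2)) z = Lf (w 0) z * Rf (w (k + 1)) z - Rf (w k) z
    rw [hR (k + 1), hN k, hR k, hL k]
  · show Rf (w 0) z ^ 2 + Rf (w 1) z ^ 2 + Lf (w 0) z ^ 2 = Lf (w 0) z * Rf (w 0) z * Rf (w 1) z
    have h1 : Mk (Lf (w 0) z) (Nf (w 0) z) (Rf (w 0) z) := Mk_Tr (w 0) z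
    unfold Mk at h1
    rw [hR 0]
    linear_combination h1
  · intro k
    show ‖Rf (w (k + 1)) z‖ ≤ ‖Rf (w k) z‖ + ‖Lf (w 0) z‖
    rw [hR k, ← hL k]
    have h1 : Ch (w (k + 1)) z := hch (k + 1)
    rw [hw k] at h1
    have g : GoR (Lf (w k) z) (Nf (w k) z) (Rf (w k) z) := h1.2
    have h2 := g.lt
    have h3 := norm_sub_norm_le (I * Nf (w k) z) (Lf (w k) z)
    rw [norm_mul, norm_I, one_mul, norm_sub_rev] at h3
    linarith

/-- **Block III**: there is no infinite chain at an interior good point. -/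
theorem INF : INF_stmt := by
  intro U z hU hz hgood hinf
  obtain ⟨r, hr, hrU⟩ := Metric.isOpen_iff.1 hU z hz
  have hr2 : 0 < r / 2 := by positivity
  have hball : ∀ y ∈ Metric.closedBall z (r / 2), Good y := fun y hy =>
    hgood y (hrU (Metric.closedBall_subset_ball (by linarith) hy))
  have hgz : Good z := hgood z hz
  -- the chain
  choose w hwl hwc using hinf
  have hstep : ∀ n, ∃ b, w (n + 1) = b :: w n := by
    intro n
    cases hcase : w (n + 1) with
    | nil =>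
      have := hwl (n + 1)
      rw [hcase] at this
      simp at this
    | cons b v =>
      refine ⟨b, ?_⟩
      have h1 := hwc (n + 1)
      rw [hcase] at h1
      have h2 : v.length = n := by
        have := hwl (n + 1)
        rw [hcase] at this
        simpa using this
      rw [III_det h1.1 (hwc n) (by rw [h2, hwl n])]
  choose b hb using hstep
  have hGo : ∀ n, Go (b n) (Lf (w n) z) (Nf (w n) z) (Rf (w n) z) := by
    intro n
    have h1 := hwc (n + 1)
    rw [hb n] at h1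
    exact h1.2
  have hmono : ∀ n, Om (w n) z ≤ Om (w (n + 1)) z := by
    intro n
    have h1 := hwc (n + 1)
    rw [hb n] at h1 ⊢
    exact III_mono h1
  have hmono' : Monotone fun n => Om (w n) z := monotone_nat_of_le_succ hmono
  have hOm1 : 0 < Om (w 1) z := (OMP ADM (w 1) z (hwc 1)).2 (by
    intro h
    have := hwl 1
    rw [h] at this
    simp at this)
  -- bounds of the zetas
  obtain ⟨M, hMdef⟩ : ∃ M, M = 64 / (r / 2) := ⟨_, rfl⟩
  have hM : 0 < M := by rw [hMdef]; positivity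
  have hz2 : ‖z‖ ≤ 2 := hgz.lt.le
  have hzeta : ∀ f : ℂ → ℂ, Differentiable ℂ f → (∀ y ∈ Metric.closedBall z (r / 2), 1 ≤ ‖f y‖) → ‖f z‖ ≤ 16 → ‖dl f z‖ ≤ M / 2 := by
    intro f hf h1 h2
    refine (III.CAU hf hr2 h1).trans ?_
    rw [hMdef, div_div, mul_comm (r / 2) 2, ← div_div]
    apply div_le_div_of_nonneg_right _ hr2.le
    have := mul_le_mul hz2 h2 (norm_nonneg _) (by norm_num : (0:ℝ) ≤ 2)
    linarith
  have hzL : ∀ n, ‖Lf (w n) z‖ ≤ 16 → ‖zL (w n) z‖ ≤ M / 2 := fun n h =>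
    hzeta _ (Diff_Tr (w n)).1 (fun y hy => (III_one (hball y hy) (w n)).1) h
  have hzN : ∀ n, ‖Nf (w n) z‖ ≤ 16 → ‖zN (w n) z‖ ≤ M / 2 := fun n h =>
    hzeta _ (Diff_Tr (w n)).2.1 (fun y hy => (III_one (hball y hy) (w n)).2.1) h
  have hzR : ∀ n, ‖Rf (w n) z‖ ≤ 16 → ‖zR (w n) z‖ ≤ M / 2 := fun n h =>
    hzeta _ (Diff_Tr (w n)).2.2 (fun y hy => (III_one (hball y hy) (w n)).2.2) h
  have hdLN : ∀ n, ‖Lf (w n) z‖ ≤ 16 → ‖Nf (w n) z‖ ≤ 16 → ‖zL (w n) z - zN (w n) z‖ ≤ M := fun n h1 h2 => by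
    have := norm_sub_le (zL (w n) z) (zN (w n) z)
    have := hzL n h1
    have := hzN n h2
    linarith
  have hdNR : ∀ n, ‖Nf (w n) z‖ ≤ 16 → ‖Rf (w n) z‖ ≤ 16 → ‖zN (w n) z - zR (w n) z‖ ≤ M := fun n h1 h2 => by
    have := norm_sub_le (zN (w n) z) (zR (w n) z)
    have := hzN n h1
    have := hzR n h2
    linarith
  obtain ⟨c0, hc0, hturn⟩ := III.TURNC
  obtain ⟨c1, hc1def⟩ : ∃ c1, c1 = Om (w 1) z := ⟨_, rfl⟩
  have hc1 : 0 < c1 := by rw [hc1def]; exact hOm1
  have hge : ∀ n, 1 ≤ n → c1 ≤ Om (w n) z := fun n hn => by rw [hc1def]; exact hmono' hn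
  obtain ⟨δ, hδdef⟩ : ∃ δ, δ = c0 / 65536 * (c1 / M) ^ 2 := ⟨_, rfl⟩
  have hδ : 0 < δ := by rw [hδdef]; positivity
  have hMk : ∀ n, Mk (Lf (w n) z) (Nf (w n) z) (Rf (w n) z) := fun n => Mk_Tr (w n) z
  -- a turn adds δ
  have hturn2 : ∀ n, 1 ≤ n → b n ≠ b (n + 1) → Om (w n) z + δ ≤ Om (w (n + 2)) z ∧ Om (w n) z ≤ M * M := by
    intro n hn hbn
    have hA := ADM _ _ (hwc n)
    have hA' := ADM _ _ (hwc (n + 1))
    have g := hGo n
    have g' := hGo (n + 1)
    have hone := III_one hgz (w n)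
    have hone' := III_one hgz (w (n + 1))
    have hcn := hwc n
    have hcn' := hwc (n + 1)
    have o1 := hge n hn
    have o2 := hge (n + 1) (by omega)
    have hbn1 := hb n
    have hbn2 := hb (n + 1)
    cases h1 : b n with
    | true =>
      have h2 : b (n + 1) = false := by
        cases h3 : b (n + 1) with
        | true => exact absurd (h1.trans h3.symm) hbn
        | false => rfl
      rw [h1] at g hbn1
      rw [h2] at g' hbn2
      have e1 : Lf (w (n + 1)) z = Nf (w n) z := by rw [hbn1]; rfl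
      have e2 : Nf (w (n + 1)) z = Nf (w n) z * Rf (w n) z - Lf (w n) z := by rw [hbn1]; rfl
      have e3 : Rf (w (n + 1)) z = Rf (w n) z := by rw [hbn1]; rfl
      have gL : GoL (Lf (w n) z) (Nf (w n) z) (Rf (w n) z) := g
      have gR : GoR (Lf (w (n + 1)) z) (Nf (w (n + 1)) z) (Rf (w (n + 1)) z) := g'
      obtain ⟨ht, s1, s2, s3, s4⟩ := III_turn (hMk n) hA gL (by rw [e1, e2, e3] at hA'; exact hA')
        (by rw [e1, e2, e3] at gR; exact gR) hone.1 hone.2.1 hone.2.2 (by rw [← e2]; exact hone'.2.1)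
      have hc := hturn _ _ _ _ ht s1 s2 s3 s4
      have t1 := III_stepL hcn gL hc1 hM s2 s3 (hdLN n s1 s2) o1
      have t2 := III_stepR hcn' gR hc1 hM (by rw [e1]; exact s2) (by rw [e2]; exact s4)
        (hdNR (n + 1) (by rw [e2]; exact s4) (by rw [e3]; exact s3)) o2
      rw [← hbn1] at t1
      rw [← hbn2, e1, e2] at t2
      refine ⟨?_, ?_⟩
      · have : δ ≤ III.gg (Nf (w n) z) (Rf (w n) z) / 65536 * (c1 / M) ^ 2 +
            III.gg (Nf (w n) z) (Nf (w n) z * Rf (w n) z - Lf (w n) z) / 65536 * (c1 / M) ^ 2 := by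
          rw [hδdef, ← add_mul, ← add_div]
          apply mul_le_mul_of_nonneg_right _ (by positivity)
          apply div_le_div_of_nonneg_right hc (by norm_num)
        linarith
      · refine (III_om_le (w n) z).trans ?_
        exact mul_le_mul (hdLN n s1 s2) (hdNR n s2 s3) (norm_nonneg _) hM.le
    | false =>
      have h2 : b (n + 1) = true := by
        cases h3 : b (n + 1) with
        | false => exact absurd (h1.trans h3.symm) hbn
        | true => rfl
      rw [h1] at g hbn1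
      rw [h2] at g' hbn2
      have e1 : Lf (w (n + 1)) z = Lf (w n) z := by rw [hbn1]; rfl
      have e2 : Nf (w (n + 1)) z = Lf (w n) z * Nf (w n) z - Rf (w n) z := by rw [hbn1]; rfl
      have e3 : Rf (w (n + 1)) z = Nf (w n) z := by rw [hbn1]; rfl
      have gR : GoR (Lf (w n) z) (Nf (w n) z) (Rf (w n) z) := g
      have gL : GoL (Lf (w (n + 1)) z) (Nf (w (n + 1)) z) (Rf (w (n + 1)) z) := g'
      -- mirror
      obtain ⟨L, hL⟩ : ∃ L, L = Lf (w n) z := ⟨_, rfl⟩
      obtain ⟨N, hN⟩ : ∃ N, N = Nf (w n) z := ⟨_, rfl⟩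
      obtain ⟨R, hR⟩ : ∃ R, R = Rf (w n) z := ⟨_, rfl⟩
      have m1 : Mk (conj R) (conj N) (conj L) := by rw [hL, hN, hR]; exact Mk_conj (hMk n)
      have m2 : Adm (conj R) (conj N) (conj L) := by rw [hL, hN, hR]; exact Adm_conj hA
      have m3 : GoL (conj R) (conj N) (conj L) := by rw [hL, hN, hR]; exact GoR_conj gR
      have ec : conj N * conj L - conj R = conj (L * N - R) := by
        rw [map_sub, map_mul]; ring
      have m4 : Adm (conj N) (conj N * conj L - conj R) (conj L) := by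
        rw [ec, hL, hN, hR]
        rw [e1, e2, e3] at hA'
        exact Adm_conj hA'
      have m5 : GoR (conj N) (conj N * conj L - conj R) (conj L) := by
        rw [ec, hL, hN, hR]
        rw [e1, e2, e3] at gL
        refine ⟨?_, ?_, ?_⟩
        · have := gL.im
          rw [conj_im]; linarith
        · have := gL.re
          have e5 : (conj (Nf (w n) z) * conj (conj (Lf (w n) z * Nf (w n) z - Rf (w n) z))).re =
              ((Lf (w n) z * Nf (w n) z - Rf (w n) z) * conj (Nf (w n) z)).re := by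
            rw [Complex.conj_conj, mul_comm]
          rw [e5]; exact this
        · have := gL.lt
          have e5 : conj (Nf (w n) z) - I * conj (Lf (w n) z * Nf (w n) z - Rf (w n) z) =
              -I * conj ((Lf (w n) z * Nf (w n) z - Rf (w n) z) - I * Nf (w n) z) := by
            simp only [map_sub, map_mul, conj_I]
            linear_combination (conj (Nf (w n) z)) * I_sq
          rw [e5, norm_mul, norm_neg, norm_I, one_mul, Complex.norm_conj, Complex.norm_conj]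
          exact this
      obtain ⟨ht, s1, s2, s3, s4⟩ := III_turn m1 m2 m3 m4 m5 (by rw [Complex.norm_conj, hR]; exact hone.2.2)
        (by rw [Complex.norm_conj, hN]; exact hone.2.1) (by rw [Complex.norm_conj, hL]; exact hone.1)
        (by rw [ec, Complex.norm_conj, hL, hN, hR, ← e2]; exact hone'.2.1)
      have hc := hturn _ _ _ _ ht s1 s2 s3 s4
      rw [ec] at hc s4
      rw [Complex.norm_conj] at s1 s2 s3 s4
      have k1 : III.gg (conj N) (conj L) = III.gg L N := by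
        unfold III.gg
        rw [Complex.conj_conj, mul_comm (conj N) L]
      have k2 : III.gg (conj N) (conj (L * N - R)) = III.gg (L * N - R) N := by
        unfold III.gg
        rw [Complex.conj_conj, mul_comm (conj N)]
      rw [k1, k2] at hc
      rw [hR] at s1
      rw [hN] at s2
      rw [hL] at s3
      rw [hL, hN, hR] at hc s4
      have t1 := III_stepR hcn gR hc1 hM s3 s2 (hdNR n s2 s1) o1
      have t2 := III_stepL hcn' gL hc1 hM (by rw [e2]; exact s4) (by rw [e3]; exact s2)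
        (hdLN (n + 1) (by rw [e1]; exact s3) (by rw [e2]; exact s4)) o2
      rw [← hbn1] at t1
      rw [← hbn2, e2, e3] at t2
      refine ⟨?_, ?_⟩
      · have : δ ≤ III.gg (Lf (w n) z) (Nf (w n) z) / 65536 * (c1 / M) ^ 2 +
            III.gg (Lf (w n) z * Nf (w n) z - Rf (w n) z) (Nf (w n) z) / 65536 * (c1 / M) ^ 2 := by
          rw [hδdef, ← add_mul, ← add_div]
          apply mul_le_mul_of_nonneg_right _ (by positivity)
          apply div_le_div_of_nonneg_right hc (by norm_num)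
        linarith
      · refine (III_om_le (w n) z).trans ?_
        exact mul_le_mul (hdLN n s3 s2) (hdNR n s2 s1) (norm_nonneg _) hM.le
  -- infinitely many turns
  have hinfturn : ∀ n0 : ℕ, ∃ n, n0 ≤ n ∧ b n ≠ b (n + 1) := by
    intro n0
    by_contra hcon
    push Not at hcon
    have hconst : ∀ k, b (n0 + k) = b n0 := by
      intro k
      induction k with
      | zero => rfl
      | succ k ih => rw [← ih, ← add_assoc]; exact (hcon (n0 + k) (by omega)).symm
    cases h1 : b n0 with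
    | true =>
      refine III_runL (z := z) (fun k => w (n0 + k)) (fun k => ?_) (fun k => hwc _)
      show w (n0 + (k + 1)) = true :: w (n0 + k)
      rw [← add_assoc, hb (n0 + k), hconst k, h1]
    | false =>
      refine III_runR (z := z) (fun k => w (n0 + k)) (fun k => ?_) (fun k => hwc _)
      show w (n0 + (k + 1)) = false :: w (n0 + k)
      rw [← add_assoc, hb (n0 + k), hconst k, h1]
  have hgrow : ∀ k : ℕ, ∃ n, 1 ≤ n ∧ (k : ℝ) * δ ≤ Om (w n) z := by
    intro k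
    induction k with
    | zero => exact ⟨1, le_rfl, by simpa using hOm1.le⟩
    | succ k ih =>
      obtain ⟨n0, hn0, h1⟩ := ih
      obtain ⟨n, hn, hbn⟩ := hinfturn n0
      obtain ⟨h2, -⟩ := hturn2 n (by omega) hbn
      refine ⟨n + 2, by omega, ?_⟩
      have h3 : Om (w n0) z ≤ Om (w n) z := hmono' hn
      push_cast
      linarith
  obtain ⟨k, hk⟩ := exists_nat_gt (M * M / δ)
  obtain ⟨n0, hn0, h1⟩ := hgrow k
  obtain ⟨n, hn, hbn⟩ := hinfturn n0
  obtain ⟨-, h2⟩ := hturn2 n (by omega) hbn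
  have h3 : Om (w n0) z ≤ Om (w n) z := hmono' hn
  rw [div_lt_iff₀ hδ] at hk
  linarith

end Pool.Agent.M4
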